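import Pool.Agent.LLR.Gst
import Pool.Agent.LLR.Dil

set_option autoImplicit false

/-! Module AvJ: the bound from one `j`, as `LLO.AvJ`, with the residue class. -/

open Finset

namespace Pool.Agent.LLR

open Pool.Agent.LLO

/-- the sum over multiples of `p` -/
private noncomputable def AvJ_T (q b k X p : ℕ) : ℝ := Tp q b k p X

private theorem AvJ_split (q b k X p : ℕ) :
    AvJ_T q b k X p = ∑ n ∈ Ico X (2 * X), Phi q (p * b % q) p k n + csr q (p * b) X (p * k) := by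
  unfold AvJ_T Tp Phi csr
  rw [← Finset.sum_add_distrib]
  refine Finset.sum_congr rfl fun n _ => ?_
  ring

private theorem AvJ_harm (m1 Z : ℕ) (hm1 : 1 ≤ m1) :
    ∑ X ∈ Icc m1 Z, (1 / (X : ℝ)) ≤ 1 + Real.log Z := by
  have h1 : ∑ X ∈ Icc m1 Z, (1 / (X : ℝ)) ≤ ∑ X ∈ Icc 1 Z, (1 / (X : ℝ)) :=
    Finset.sum_le_sum_of_subset_of_nonneg (Finset.Icc_subset_Icc_left hm1)
      fun X _ _ => by positivity
  refine h1.trans ?_
  have h2 := harmonic_le_one_add_log Z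
  rw [harmonic_eq_sum_Icc] at h2
  push_cast at h2
  simpa only [one_div] using h2

/-- Cauchy-Schwarz for the square roots -/
private theorem AvJ_cs (s : Finset ℕ) (d : ℕ → ℝ) (hd : ∀ X, 0 ≤ d X) (N δ L : ℝ)
    (hN : 0 ≤ N) (hδ : 0 ≤ δ) (hL : 0 ≤ L) (h1 : ∑ X ∈ s, (1 / (X : ℝ)) ≤ L)
    (h2 : ∑ X ∈ s, (1 / (X : ℝ)) * d X ≤ δ * N * L) :
    ∑ X ∈ s, (1 / (X : ℝ)) * √(2 * d X * N) ≤ N * √(2 * δ) * L := by
  have h3 : ∑ X ∈ s, (1 / (X : ℝ)) * √(2 * d X * N) =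
      ∑ X ∈ s, √(1 / (X : ℝ)) * √((1 / (X : ℝ)) * (2 * d X * N)) := by
    refine Finset.sum_congr rfl fun X _ => ?_
    have hX : (0 : ℝ) ≤ 1 / (X : ℝ) := by positivity
    rw [Real.sqrt_mul hX, ← mul_assoc, Real.mul_self_sqrt hX]
  rw [h3]
  have h4 := Real.sum_sqrt_mul_sqrt_le s (f := fun X : ℕ => 1 / (X : ℝ))
    (g := fun X : ℕ => (1 / (X : ℝ)) * (2 * d X * N)) (fun X => by positivity)
    (fun X => by
      have := hd X
      positivity)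
  refine h4.trans ?_
  have h5 : ∑ X ∈ s, (1 / (X : ℝ)) * (2 * d X * N) ≤ 2 * δ * N ^ 2 * L := by
    have h6 : ∑ X ∈ s, (1 / (X : ℝ)) * (2 * d X * N) = 2 * N * ∑ X ∈ s, (1 / (X : ℝ)) * d X := by
      rw [Finset.mul_sum]
      refine Finset.sum_congr rfl fun X _ => ?_
      ring
    rw [h6]
    calc 2 * N * ∑ X ∈ s, (1 / (X : ℝ)) * d X ≤ 2 * N * (δ * N * L) :=
          mul_le_mul_of_nonneg_left h2 (by positivity)
      _ = _ := by ring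
  have h7 : √(∑ X ∈ s, (1 / (X : ℝ))) * √(∑ X ∈ s, (1 / (X : ℝ)) * (2 * d X * N)) ≤
      √L * √(2 * δ * N ^ 2 * L) :=
    mul_le_mul (Real.sqrt_le_sqrt h1) (Real.sqrt_le_sqrt h5) (Real.sqrt_nonneg _)
      (Real.sqrt_nonneg _)
  refine h7.trans (le_of_eq ?_)
  rw [← Real.sqrt_mul hL]
  have h8 : L * (2 * δ * N ^ 2 * L) = (2 * δ) * (N * L) ^ 2 := by ring
  rw [h8, Real.sqrt_mul (by positivity), Real.sqrt_sq (by positivity)]
  ring

theorem avJ (q b A P k m1 : ℕ) (hq : ∀ p ∈ pr A P, Nat.gcd q p = 1) (hA : 1 ≤ A) (hP : 1 ≤ P) (hm1 : 1 ≤ m1) (hne : 1 ≤ (pr A P).card) (ε δ : ℝ) (hε : 0 < ε) (hδ : 0 ≤ δ)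
    (X2 : ℕ) (h : ∀ X : ℕ, X2 ≤ X → ∑ p ∈ pr A P, |csr q (p * b) X (p * k)| ≤ ε * (pr A P).card * X) :
    ∃ K : ℝ, ∀ Z : ℕ, m1 ≤ Z →
      ∑ X ∈ Icc m1 Z, (1 / (X : ℝ)) * dfr q X A P (A * P * (k + 1)) ≤ δ * (pr A P).card * ∑ X ∈ Icc m1 Z, (1 / (X : ℝ)) →
      ∑ m ∈ Icc 1 Z, |csr q b m k| / (m : ℝ) ^ 2 ≤ K + (12 * √(2 * δ) + 8 * ε) * (1 + Real.log Z) := by
  classical
  obtain ⟨X0, hX0⟩ := gst q (fun p => p * b % q) A P (A * P * (k + 1)) k hA hP le_rfl ε hε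
  set N : ℝ := ((pr A P).card : ℝ) with hNdef
  have hN1 : 1 ≤ N := by rw [hNdef]; exact_mod_cast hne
  set X1 : ℕ := max (max X0 X2) m1 with hX1
  have hX10 : X0 ≤ X1 := (le_max_left _ _).trans (le_max_left _ _)
  have hX12 : X2 ≤ X1 := (le_max_right _ _).trans (le_max_left _ _)
  have hX1m : m1 ≤ X1 := le_max_right _ _
  set H : ℕ := A * P * (k + 1) with hH
  set Tm : ℕ → ℝ := fun X => ∑ p ∈ pr A P, |AvJ_T q b k X p| with hTm
  have hTm0 : ∀ X, 0 ≤ Tm X := fun X => Finset.sum_nonneg fun p _ => abs_nonneg _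
  have hT : ∀ X, X1 ≤ X → Tm X ≤ 3 * X * √(2 * dfr q X A P H * N) + 2 * ε * N * X := by
    intro X hX
    have h1 : Tm X ≤ ∑ p ∈ pr A P, |∑ n ∈ Ico X (2 * X), Phi q (p * b % q) p k n| +
        ∑ p ∈ pr A P, |csr q (p * b) X (p * k)| := by
      rw [← Finset.sum_add_distrib]
      refine Finset.sum_le_sum fun p _ => ?_
      rw [AvJ_split]
      exact abs_add_le _ _
    have h2 := hX0 X (hX10.trans hX)
    have h3 := h X (hX12.trans hX)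
    have h4 : ε * X ≤ ε * N * X := by
      have : (0 : ℝ) ≤ ε * X := by positivity
      nlinarith
    linarith
  set C : ℝ := ∑ X ∈ Icc 1 X1, Tm X / (X : ℝ) ^ 2 with hC
  have hC0 : 0 ≤ C := Finset.sum_nonneg fun X _ => div_nonneg (hTm0 X) (by positivity)
  refine ⟨4 * C + 24 + 2 * (A * P : ℕ), fun Z hZ hyp => ?_⟩
  set L : ℝ := ∑ X ∈ Icc m1 Z, (1 / (X : ℝ)) with hL
  have hL0 : 0 ≤ L := Finset.sum_nonneg fun X _ => by positivity
  have hsub : Icc X1 Z ⊆ Icc m1 Z := Finset.Icc_subset_Icc_left hX1m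
  have hcs := AvJ_cs (Icc X1 Z) (fun X => dfr q X A P H) (fun X => dfr_nonneg q X A P H) N δ L
    (by linarith) hδ hL0
    (Finset.sum_le_sum_of_subset_of_nonneg hsub fun X _ _ => by positivity)
    ((Finset.sum_le_sum_of_subset_of_nonneg hsub fun X _ _ =>
      mul_nonneg (by positivity) (dfr_nonneg q X A P H)).trans hyp)
  have hbig : ∑ X ∈ Icc X1 Z, Tm X / (X : ℝ) ^ 2 ≤ 3 * (N * √(2 * δ) * L) + 2 * ε * N * L := by
    have h1 : ∀ X ∈ Icc X1 Z, Tm X / (X : ℝ) ^ 2 ≤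
        3 * ((1 / (X : ℝ)) * √(2 * dfr q X A P H * N)) + 2 * ε * N * (1 / (X : ℝ)) := by
      intro X hX
      rw [Finset.mem_Icc] at hX
      have hXpos : (0 : ℝ) < X := by
        have : 0 < X := by omega
        exact_mod_cast this
      rw [div_le_iff₀ (by positivity)]
      refine (hT X hX.1).trans (le_of_eq ?_)
      field_simp
    refine (Finset.sum_le_sum h1).trans ?_
    rw [Finset.sum_add_distrib, ← Finset.mul_sum, ← Finset.mul_sum]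
    refine add_le_add (mul_le_mul_of_nonneg_left hcs (by norm_num))
      (mul_le_mul_of_nonneg_left ?_ (by positivity))
    exact Finset.sum_le_sum_of_subset_of_nonneg hsub fun X _ _ => by positivity
  have hall : ∑ X ∈ Icc 1 Z, Tm X / (X : ℝ) ^ 2 ≤ C + (3 * (N * √(2 * δ) * L) + 2 * ε * N * L) := by
    have h1 : Icc 1 Z ⊆ Icc 1 X1 ∪ Icc X1 Z := by
      intro X hX
      rw [Finset.mem_Icc] at hX
      rw [Finset.mem_union, Finset.mem_Icc, Finset.mem_Icc]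
      omega
    have h2 : ∑ X ∈ Icc 1 Z, Tm X / (X : ℝ) ^ 2 ≤
        ∑ X ∈ Icc 1 X1 ∪ Icc X1 Z, Tm X / (X : ℝ) ^ 2 :=
      Finset.sum_le_sum_of_subset_of_nonneg h1 fun X _ _ => div_nonneg (hTm0 X) (by positivity)
    have h3 : ∑ X ∈ Icc 1 X1 ∪ Icc X1 Z, Tm X / (X : ℝ) ^ 2 ≤
        ∑ X ∈ Icc 1 X1, Tm X / (X : ℝ) ^ 2 + ∑ X ∈ Icc X1 Z, Tm X / (X : ℝ) ^ 2 := by
      rw [← Finset.sum_union_inter]
      have : 0 ≤ ∑ X ∈ Icc 1 X1 ∩ Icc X1 Z, Tm X / (X : ℝ) ^ 2 :=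
        Finset.sum_nonneg fun X _ => div_nonneg (hTm0 X) (by positivity)
      linarith
    linarith
  set AZ : ℝ := ∑ m ∈ Icc 1 Z, |csr q b m k| / (m : ℝ) ^ 2 with hAZ
  have hdil : ∀ p ∈ pr A P, AZ ≤ 4 * ∑ X ∈ Icc 1 Z, |AvJ_T q b k X p| / (X : ℝ) ^ 2 +
      (24 + 2 * (A * P : ℕ)) := by
    intro p hp
    have h1 := dil q b k p (mem_pr.1 hp).2 (hq p hp) Z
    have h2 : (p : ℝ) ≤ ((A * P : ℕ) : ℝ) := by exact_mod_cast (mem_pr.1 hp).1.2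
    have h3 : ∑ X ∈ Icc 1 Z, |Tp q b k p X| / (X : ℝ) ^ 2 =
        ∑ X ∈ Icc 1 Z, |AvJ_T q b k X p| / (X : ℝ) ^ 2 := rfl
    rw [h3] at h1
    linarith
  have hsumdil : N * AZ ≤ 4 * ∑ X ∈ Icc 1 Z, Tm X / (X : ℝ) ^ 2 + N * (24 + 2 * (A * P : ℕ)) := by
    have h1 := Finset.sum_le_sum hdil
    rw [Finset.sum_const, nsmul_eq_mul, Finset.sum_add_distrib, Finset.sum_const, nsmul_eq_mul,
      ← Finset.mul_sum, Finset.sum_comm] at h1
    have h2 : ∑ X ∈ Icc 1 Z, ∑ p ∈ pr A P, |AvJ_T q b k X p| / (X : ℝ) ^ 2 =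
        ∑ X ∈ Icc 1 Z, Tm X / (X : ℝ) ^ 2 := by
      refine Finset.sum_congr rfl fun X _ => ?_
      rw [hTm, Finset.sum_div]
    rw [h2] at h1
    exact h1
  have hLog := AvJ_harm m1 Z hm1
  have hcoef : 0 ≤ 12 * √(2 * δ) + 8 * ε := by positivity
  have hfin : N * AZ ≤ N * (4 * C + 24 + 2 * (A * P : ℕ) + (12 * √(2 * δ) + 8 * ε) * L) := by
    have h1 : 4 * C ≤ N * (4 * C) := by nlinarith
    have h2 : N * (4 * C + 24 + 2 * (A * P : ℕ) + (12 * √(2 * δ) + 8 * ε) * L) =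
        N * (4 * C) + N * (24 + 2 * (A * P : ℕ)) +
          4 * (3 * (N * √(2 * δ) * L) + 2 * ε * N * L) := by ring
    rw [h2]
    linarith
  have h1 := le_of_mul_le_mul_left hfin (by linarith)
  have h2 := mul_le_mul_of_nonneg_left hLog hcoef
  linarith

end Pool.Agent.LLR
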