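import Pool.Agent.LLO.CorSq
import Pool.Agent.LLO.PairS

set_option autoImplicit false

/-! Module TtsW: `LLO.tts` with an arbitrary bounded weight `w n` in place of `lam n` (Cauchy-Schwarz in `n`). -/

open Finset

namespace Pool.Agent.LLR

open Pool.Agent.LLO

private theorem tts_diff (A P : ℕ) (g : ℕ → ℝ) :
    ∑ p ∈ pr A P, ∑ q ∈ (pr A P).filter (fun q => p < q), g (q - p) =
      ∑ d ∈ Icc 1 (A * P), (rr A P d : ℝ) * g d := by
  have h1 : ∀ p ∈ pr A P, ∑ q ∈ (pr A P).filter (fun q => p < q), g (q - p) =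
      ∑ d ∈ Icc 1 (A * P), if p + d ∈ pr A P then g d else 0 := by
    intro p hp
    rw [← Finset.sum_filter]
    refine Finset.sum_nbij' (fun q => q - p) (fun d => p + d) ?_ ?_ ?_ ?_ ?_
    · intro q hq
      rw [mem_filter] at hq
      rw [mem_filter, mem_Icc]
      have h2 := (mem_pr.1 hq.1).1.2
      refine ⟨⟨by omega, by omega⟩, ?_⟩
      rw [show p + (q - p) = q by omega]
      exact hq.1
    · intro d hd
      rw [mem_filter, mem_Icc] at hd
      rw [mem_filter]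
      exact ⟨hd.2, by omega⟩
    · intro q hq
      rw [mem_filter] at hq
      omega
    · intro d _
      omega
    · intro q _
      rfl
  rw [Finset.sum_congr rfl h1, Finset.sum_comm]
  refine Finset.sum_congr rfl fun d _ => ?_
  rw [← Finset.sum_filter, Finset.sum_const, nsmul_eq_mul]
  rfl

private theorem tts_sym (S : Finset ℕ) (B : ℕ → ℕ → ℝ) (hB : ∀ p q, B p q = B q p) :
    ∑ p ∈ S, ∑ q ∈ S, B p q =
      ∑ p ∈ S, B p p + 2 * ∑ p ∈ S, ∑ q ∈ S.filter (fun q => p < q), B p q := by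
  have h : ∀ p ∈ S, ∑ q ∈ S, B p q =
      B p p + ∑ q ∈ S.filter (fun q => p < q), B p q + ∑ q ∈ S.filter (fun q => q < p), B p q := by
    intro p hp
    rw [← Finset.sum_filter_add_sum_filter_not S (fun q => p < q)]
    have h3 : S.filter (fun q => ¬ p < q) = insert p (S.filter (fun q => q < p)) := by
      ext q
      simp only [mem_filter, mem_insert]
      constructor
      · rintro ⟨h4, h5⟩
        rcases lt_or_eq_of_le (not_lt.1 h5) with h6 | h6
        · exact Or.inr ⟨h4, h6⟩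
        · exact Or.inl h6
      · rintro (h4 | h4)
        · subst h4
          exact ⟨hp, lt_irrefl _⟩
        · exact ⟨h4.1, by omega⟩
    rw [h3, Finset.sum_insert (by simp)]
    ring
  rw [Finset.sum_congr rfl h, sum_add_distrib, sum_add_distrib]
  have h2 : ∑ p ∈ S, ∑ q ∈ S.filter (fun q => q < p), B p q =
      ∑ p ∈ S, ∑ q ∈ S.filter (fun q => p < q), B p q := by
    simp only [sum_filter]
    rw [sum_comm]
    refine sum_congr rfl fun p _ => sum_congr rfl fun q _ => ?_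
    rw [hB]
  rw [h2]
  ring

private theorem tts_off (A P k X : ℕ) (c : ℕ → ℝ) (hc : ∀ p, |c p| ≤ 1) :
    ∑ n ∈ Ico X (2 * X), (∑ p ∈ pr A P, c p * lam (n + p * k)) ^ 2 ≤
      (pr A P).card * X + 2 * (∑ d ∈ Icc 1 (A * P), (rr A P d : ℝ) * |cs X (d * k)| +
        ((pr A P).card : ℝ) ^ 2 * (2 * (A * P) * k)) := by
  set T : ℕ → ℕ → ℝ := fun p q => ∑ n ∈ Ico X (2 * X), lam (n + p * k) * lam (n + q * k) with hT
  have h1 : ∑ n ∈ Ico X (2 * X), (∑ p ∈ pr A P, c p * lam (n + p * k)) ^ 2 =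
      ∑ p ∈ pr A P, ∑ q ∈ pr A P, c p * c q * T p q := by
    have : ∀ n ∈ Ico X (2 * X), (∑ p ∈ pr A P, c p * lam (n + p * k)) ^ 2 =
        ∑ p ∈ pr A P, ∑ q ∈ pr A P, c p * c q * (lam (n + p * k) * lam (n + q * k)) := by
      intro n _
      rw [sq, Finset.sum_mul_sum]
      refine sum_congr rfl fun p _ => sum_congr rfl fun q _ => ?_
      ring
    rw [sum_congr rfl this, sum_comm]
    refine sum_congr rfl fun p _ => ?_
    rw [sum_comm]
    refine sum_congr rfl fun q _ => ?_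
    rw [hT, ← mul_sum]
  have h2 : ∑ p ∈ pr A P, ∑ q ∈ pr A P, c p * c q * T p q ≤
      ∑ p ∈ pr A P, ∑ q ∈ pr A P, |T p q| := by
    refine sum_le_sum fun p _ => sum_le_sum fun q _ => ?_
    refine (le_abs_self _).trans ?_
    rw [abs_mul, abs_mul]
    have h3 : |c p| * |c q| ≤ 1 := mul_le_one₀ (hc p) (abs_nonneg _) (hc q)
    calc |c p| * |c q| * |T p q| ≤ 1 * |T p q| := mul_le_mul_of_nonneg_right h3 (abs_nonneg _)
      _ = |T p q| := one_mul _
  have h4 : ∀ p q, |T p q| = |T q p| := by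
    intro p q
    simp only [hT]
    congr 1
    exact sum_congr rfl fun n _ => mul_comm _ _
  rw [h1]
  refine h2.trans ?_
  rw [tts_sym _ _ h4]
  have h5 : ∀ p ∈ pr A P, |T p p| = X := by
    intro p _
    simp only [hT]
    rw [sum_congr rfl fun n _ => lam_sq _]
    rw [sum_const, Nat.card_Ico, nsmul_eq_mul, mul_one, show 2 * X - X = X by omega, Nat.abs_cast]
  rw [sum_congr rfl h5, sum_const, nsmul_eq_mul]
  have h6 : ∑ p ∈ pr A P, ∑ q ∈ (pr A P).filter (fun q => p < q), |T p q| ≤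
      ∑ p ∈ pr A P, ∑ q ∈ (pr A P).filter (fun q => p < q),
        (|cs X ((q - p) * k)| + 2 * (A * P) * k) := by
    refine sum_le_sum fun p hp => sum_le_sum fun q hq => ?_
    rw [mem_filter] at hq
    have h7 := shift_cs X (p * k) ((q - p) * k)
    have h8 : T p q = ∑ x ∈ Ico X (2 * X), lam (x + p * k) * lam (x + p * k + (q - p) * k) := by
      simp only [hT]
      refine sum_congr rfl fun n _ => ?_
      have h10 : q * k = p * k + (q - p) * k := by
        rw [← add_mul]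
        congr 1
        omega
      rw [h10, add_assoc]
    rw [← h8] at h7
    have h9 : ((p : ℕ) : ℝ) ≤ A * P := by
      have := (mem_pr.1 hp).1.2
      exact_mod_cast this
    have h11 : |T p q| ≤ |cs X ((q - p) * k)| + |T p q - cs X ((q - p) * k)| := by
      calc |T p q| = |cs X ((q - p) * k) + (T p q - cs X ((q - p) * k))| := by ring_nf
        _ ≤ _ := abs_add_le _ _
    have h12 : (p : ℝ) * k ≤ A * P * k := mul_le_mul_of_nonneg_right h9 (Nat.cast_nonneg _)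
    push_cast at h7
    linarith
  have h7 : ∑ p ∈ pr A P, ∑ q ∈ (pr A P).filter (fun q => p < q),
        (|cs X ((q - p) * k)| + 2 * (A * P) * k) ≤
      ∑ d ∈ Icc 1 (A * P), (rr A P d : ℝ) * |cs X (d * k)| +
        ((pr A P).card : ℝ) ^ 2 * (2 * (A * P) * k) := by
    rw [← tts_diff A P (fun d => |cs X (d * k)|)]
    simp only [sum_add_distrib]
    refine add_le_add le_rfl ?_
    calc ∑ p ∈ pr A P, ∑ q ∈ (pr A P).filter (fun q => p < q), (2 * ((A : ℝ) * P) * k)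
        ≤ ∑ p ∈ pr A P, ∑ q ∈ pr A P, (2 * ((A : ℝ) * P) * k) := by
          refine sum_le_sum fun p _ => ?_
          exact sum_le_sum_of_subset_of_nonneg (filter_subset _ _) fun _ _ _ => by positivity
      _ = _ := by
          rw [sum_const, sum_const, nsmul_eq_mul, nsmul_eq_mul]
          ring
  linarith

theorem ttsW (A : ℕ) (hA : GA A) (k : ℕ) (hk : 1 ≤ k) (ε : ℝ) (hε : 0 < ε) : ∃ P0 : ℕ, ∀ P : ℕ, P0 ≤ P →
    ∃ X0 : ℕ, ∀ X : ℕ, X0 ≤ X → ∀ w : ℕ → ℝ, (∀ n, |w n| ≤ 1) →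
      ∑ p ∈ pr A P, |∑ n ∈ Ico X (2 * X), w n * lam (n + p * k)| ≤ ε * (pr A P).card * X := by
  obtain ⟨hA2, c, hc, P1, hP1, hGA⟩ := hA
  obtain ⟨C, hC, P2, hpair⟩ := pairS A (by omega)
  have hA0 : (0 : ℝ) < A := by
    have : 0 < A := by omega
    exact_mod_cast this
  have hk0 : (0 : ℝ) < k := by exact_mod_cast hk
  set η : ℝ := ε ^ 4 * c ^ 4 / (36 * C * k * A) with hη
  have hη0 : 0 < η := by positivity
  obtain ⟨D0, hcor⟩ := corSq η hη0
  refine ⟨max (max P1 P2) (max D0 ⌈(6 / (c * ε ^ 2)) ^ 2⌉₊), fun P hP => ?_⟩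
  have hPP1 : P1 ≤ P := (le_max_left _ _).trans ((le_max_left _ _).trans hP)
  have hPP2 : P2 ≤ P := (le_max_right _ _).trans ((le_max_left _ _).trans hP)
  have hPD : D0 ≤ P := (le_max_left _ _).trans ((le_max_right _ _).trans hP)
  have hPc : ⌈(6 / (c * ε ^ 2)) ^ 2⌉₊ ≤ P := (le_max_right _ _).trans ((le_max_right _ _).trans hP)
  have hP2' : 2 ≤ P := hP1.trans hPP1
  have hP2r : (2 : ℝ) ≤ P := by exact_mod_cast hP2'
  have hP0 : (0 : ℝ) < P := by linarith
  have hlog : 0 < Real.log P := Real.log_pos (by linarith)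
  obtain ⟨X1, hX1⟩ := hcor (k * (A * P)) (by
    calc D0 ≤ P := hPD
      _ = 1 * (1 * P) := by ring
      _ ≤ k * (A * P) := Nat.mul_le_mul hk (Nat.mul_le_mul (by omega) le_rfl))
  have hs := hGA P hPP1
  have hpr := hpair P hPP2
  set s : ℝ := ((pr A P).card : ℝ) with hsdef
  refine ⟨max X1 (max 1 ⌈12 * (A * P) * k / ε ^ 2⌉₊), fun X hX w hw => ?_⟩
  have hXX1 : X1 ≤ X := (le_max_left _ _).trans hX
  have hX1' : 1 ≤ X := (le_max_left _ _).trans ((le_max_right _ _).trans hX)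
  have hXc : ⌈12 * ((A : ℝ) * P) * k / ε ^ 2⌉₊ ≤ X :=
    (le_max_right _ _).trans ((le_max_right _ _).trans hX)
  have hX0 : (0 : ℝ) < X := by exact_mod_cast hX1'
  -- lower bound for s
  have hs0 : 0 < s := lt_of_lt_of_le (by positivity) hs
  have hs1 : 3 ≤ ε ^ 2 * s := by
    have h1 : (6 / (c * ε ^ 2)) ^ 2 ≤ P := (Nat.le_ceil _).trans (by exact_mod_cast hPc)
    have h2 : 6 / (c * ε ^ 2) ≤ √P := Real.le_sqrt_of_sq_le h1
    have h3 : Real.log P ≤ 2 * √P := by
      have h4 : Real.log P = 2 * Real.log (√P) := by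
        rw [Real.log_sqrt hP0.le]
        ring
      have h5 : Real.log (√P) ≤ √P - 1 := Real.log_le_sub_one_of_pos (Real.sqrt_pos.2 hP0)
      linarith
    have h4 : c * √P / 2 ≤ c * P / Real.log P := by
      rw [div_le_div_iff₀ (by norm_num) hlog]
      have h5 : (P : ℝ) = √P * √P := (Real.mul_self_sqrt hP0.le).symm
      calc c * √P * Real.log P ≤ c * √P * (2 * √P) :=
            mul_le_mul_of_nonneg_left h3 (by positivity)
        _ = c * (√P * √P) * 2 := by ring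
        _ = c * P * 2 := by rw [← h5]
    have h6 : 3 / ε ^ 2 ≤ s := by
      calc 3 / ε ^ 2 = c * (6 / (c * ε ^ 2)) / 2 := by field_simp; ring
        _ ≤ c * √P / 2 := by gcongr
        _ ≤ s := h4.trans hs
    rw [div_le_iff₀ (by positivity)] at h6
    linarith
  -- signs
  set u : ℕ → ℝ := fun p => ∑ n ∈ Ico X (2 * X), w n * lam (n + p * k) with hu
  set c' : ℕ → ℝ := fun p => if 0 ≤ u p then 1 else -1 with hc'
  have hc1 : ∀ p, |c' p| ≤ 1 := by
    intro p
    simp only [hc']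
    split_ifs <;> simp
  have hc2 : ∀ p, |u p| = c' p * u p := by
    intro p
    simp only [hc']
    split_ifs with h
    · rw [abs_of_nonneg h, one_mul]
    · rw [abs_of_neg (not_le.1 h)]
      ring
  set Tot : ℝ := ∑ p ∈ pr A P, |u p| with hTot
  have hTot0 : 0 ≤ Tot := sum_nonneg fun _ _ => abs_nonneg _
  have e1 : Tot = ∑ n ∈ Ico X (2 * X), w n * ∑ p ∈ pr A P, c' p * lam (n + p * k) := by
    rw [hTot, sum_congr rfl fun p _ => hc2 p]
    simp only [hu, mul_sum]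
    rw [sum_comm]
    refine sum_congr rfl fun n _ => sum_congr rfl fun p _ => ?_
    ring
  have e2 : Tot ^ 2 ≤ X * ∑ n ∈ Ico X (2 * X), (∑ p ∈ pr A P, c' p * lam (n + p * k)) ^ 2 := by
    rw [e1]
    refine (sum_mul_sq_le_sq_mul_sq _ _ _).trans ?_
    have h1 : ∑ n ∈ Ico X (2 * X), w n ^ 2 ≤ X := by
      have h2 : ∀ n ∈ Ico X (2 * X), w n ^ 2 ≤ 1 := fun n _ => by
        rw [← sq_abs]
        exact pow_le_one₀ (abs_nonneg _) (hw n)
      refine (sum_le_sum h2).trans ?_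
      rw [sum_const, Nat.card_Ico, nsmul_eq_mul, mul_one, show 2 * X - X = X by omega]
    exact mul_le_mul_of_nonneg_right h1 (sum_nonneg fun _ _ => sq_nonneg _)
  have e3 := tts_off A P k X c' hc1
  rw [← hsdef] at e3
  -- the sum over differences
  set W : ℝ := ∑ d ∈ Icc 1 (A * P), (rr A P d : ℝ) * |cs X (d * k)| with hW
  have hW0 : 0 ≤ W := sum_nonneg fun _ _ => mul_nonneg (Nat.cast_nonneg _) (abs_nonneg _)
  have e4 : ∑ d ∈ Icc 1 (A * P), |cs X (d * k)| ^ 2 ≤ η * (k * (A * P)) * (X : ℝ) ^ 2 := by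
    have h1 := hX1 X hXX1
    push_cast at h1
    refine le_trans ?_ h1
    have h2 : ∑ d ∈ Icc 1 (A * P), |cs X (d * k)| ^ 2 =
        ∑ m ∈ (Icc 1 (A * P)).image (fun d => d * k), (cs X m) ^ 2 := by
      rw [sum_image]
      · exact sum_congr rfl fun d _ => sq_abs _
      · intro a _ b _ hab
        exact Nat.eq_of_mul_eq_mul_right (by omega) hab
    rw [h2]
    refine sum_le_sum_of_subset_of_nonneg ?_ fun _ _ _ => sq_nonneg _
    intro m hm
    rw [mem_image] at hm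
    obtain ⟨d, hd, rfl⟩ := hm
    rw [mem_Icc] at hd ⊢
    refine ⟨Nat.mul_pos (by omega) (by omega), ?_⟩
    rw [mul_comm]
    exact Nat.mul_le_mul le_rfl hd.2
  have e5 : W ^ 2 ≤ (ε ^ 2 / 6 * s ^ 2 * X) ^ 2 := by
    have h1 : W ^ 2 ≤ (∑ d ∈ Icc 1 (A * P), (rr A P d : ℝ) ^ 2) *
        ∑ d ∈ Icc 1 (A * P), |cs X (d * k)| ^ 2 := sum_mul_sq_le_sq_mul_sq _ _ _
    have h2 : W ^ 2 ≤ (C * (P : ℝ) ^ 3 / Real.log P ^ 4) * (η * (k * (A * P)) * (X : ℝ) ^ 2) :=
      h1.trans (mul_le_mul hpr e4 (sum_nonneg fun _ _ => sq_nonneg _) (by positivity))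
    refine h2.trans ?_
    have h3 : (c * P / Real.log P) ^ 4 ≤ s ^ 4 := by
      have : 0 ≤ c * P / Real.log P := by positivity
      gcongr
    calc (C * (P : ℝ) ^ 3 / Real.log P ^ 4) * (η * (k * (A * P)) * (X : ℝ) ^ 2)
        = ε ^ 4 / 36 * (c * P / Real.log P) ^ 4 * (X : ℝ) ^ 2 := by
          rw [hη]
          field_simp
      _ ≤ ε ^ 4 / 36 * s ^ 4 * (X : ℝ) ^ 2 := by gcongr
      _ = (ε ^ 2 / 6 * s ^ 2 * X) ^ 2 := by ring
  have e6 : W ≤ ε ^ 2 / 6 * s ^ 2 * X := le_of_sq_le_sq e5 (by positivity)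
  have e7 : 12 * ((A : ℝ) * P) * k ≤ ε ^ 2 * X := by
    have h1 : 12 * ((A : ℝ) * P) * k / ε ^ 2 ≤ X := (Nat.le_ceil _).trans (by exact_mod_cast hXc)
    rw [div_le_iff₀ (by positivity)] at h1
    linarith
  have e8 : Tot ^ 2 ≤ (ε * s * X) ^ 2 := by
    refine e2.trans ((mul_le_mul_of_nonneg_left e3 hX0.le).trans ?_)
    have h1 : s * (X : ℝ) ≤ ε ^ 2 / 3 * s ^ 2 * X := by
      have : s * 3 ≤ s * (ε ^ 2 * s) := mul_le_mul_of_nonneg_left hs1 hs0.le
      nlinarith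
    have h2 : s ^ 2 * (2 * ((A : ℝ) * P) * k) ≤ s ^ 2 * (ε ^ 2 / 6 * X) :=
      mul_le_mul_of_nonneg_left (by linarith) (by positivity)
    calc (X : ℝ) * (s * X + 2 * (W + s ^ 2 * (2 * (A * P) * k)))
        ≤ X * (ε ^ 2 / 3 * s ^ 2 * X + 2 * (ε ^ 2 / 6 * s ^ 2 * X + s ^ 2 * (ε ^ 2 / 6 * X))) := by
          apply mul_le_mul_of_nonneg_left _ hX0.le
          linarith
      _ = (ε * s * X) ^ 2 := by ring
  exact le_of_sq_le_sq e8 (by positivity)

end Pool.Agent.LLR
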