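import Pool.Agent.LLR.AvJ
import Pool.Agent.LLR.Prm
import Pool.Agent.LLR.TtsW

set_option autoImplicit false

/-! Module Avg (assembly), as `LLO.Avg`, with the residue class. -/

open Finset

namespace Pool.Agent.LLR

open Pool.Agent.LLO

/-- sum over the primes, each with its own residue class -/
theorem tts_res (A : ℕ) (hA : GA A) (q b k : ℕ) (hq : 1 ≤ q) (hk : 1 ≤ k) (ε : ℝ) (hε : 0 < ε) : ∃ P0 : ℕ, ∀ P : ℕ, P0 ≤ P →
    ∃ X0 : ℕ, ∀ X : ℕ, X0 ≤ X → ∑ p ∈ pr A P, |csr q (p * b) X (p * k)| ≤ ε * (pr A P).card * X := by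
  obtain ⟨P0, h0⟩ := ttsW A hA k hk (ε / q) (div_pos hε (by exact_mod_cast hq))
  refine ⟨P0, fun P hP => ?_⟩
  obtain ⟨X0, h1⟩ := h0 P hP
  refine ⟨X0, fun X hX => ?_⟩
  have hq0 : (0 : ℝ) < q := by exact_mod_cast hq
  have h2 : ∀ p ∈ pr A P, |csr q (p * b) X (p * k)| ≤
      ∑ t ∈ range q, |∑ n ∈ Ico X (2 * X), lr q t n * lam (n + p * k)| := by
    intro p _
    unfold csr
    exact single_le_sum (f := fun t => |∑ n ∈ Ico X (2 * X), lr q t n * lam (n + p * k)|)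
      (fun _ _ => abs_nonneg _) (mem_range.2 (Nat.mod_lt _ hq))
  refine (sum_le_sum h2).trans ?_
  rw [sum_comm]
  refine (sum_le_sum fun t _ => h1 X hX (lr q t) (lr_abs q t)).trans (le_of_eq ?_)
  rw [sum_const, card_range, nsmul_eq_mul]
  field_simp

theorem avg (q b k : ℕ) (hq : 1 ≤ q) (hk : 1 ≤ k) (ε : ℝ) (hε : 0 < ε) : ∃ Z0 : ℕ, ∀ Z : ℕ, Z0 ≤ Z →
    ∑ m ∈ Icc 1 Z, |csr q b m k| / (m : ℝ) ^ 2 ≤ ε * Real.log Z := by
  obtain ⟨A, hA⟩ := exists_GA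
  have hA2 : 2 ≤ A := hA.1
  set δ : ℝ := (ε / 96) ^ 2 / 2 with hδ
  have hδ0 : 0 < δ := by positivity
  have hsq : √(2 * δ) = ε / 96 := by
    have : 2 * δ = (ε / 96) ^ 2 := by rw [hδ]; ring
    rw [this]
    exact Real.sqrt_sq (by positivity)
  obtain ⟨P1, hP1⟩ := tts_res A hA q b k hq hk (ε / 64) (by positivity)
  obtain ⟨P, J, m1, hPP1, hP2, hJ1, hm1, hcard, hmain⟩ := prm q hq A hA k δ hδ0 (P1 + q)
  have hpow : ∀ j : ℕ, P ≤ A ^ j * P := fun j => Nat.le_mul_of_pos_left _ (Nat.one_le_pow _ _ (by omega))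
  have hK : ∀ j : ℕ, ∃ K : ℝ, j < J → ∀ Z : ℕ, m1 ≤ Z →
      ∑ X ∈ Icc m1 Z, (1 / (X : ℝ)) * dfr q X A (A ^ j * P) (A * (A ^ j * P) * (k + 1)) ≤
        δ * (pr A (A ^ j * P)).card * ∑ X ∈ Icc m1 Z, (1 / (X : ℝ)) →
      ∑ m ∈ Icc 1 Z, |csr q b m k| / (m : ℝ) ^ 2 ≤ K + (12 * √(2 * δ) + 8 * (ε / 64)) * (1 + Real.log Z) := by
    intro j
    by_cases hj : j < J
    · have hPP1' : P1 ≤ P := by omega
      obtain ⟨X2, hX2⟩ := hP1 (A ^ j * P) (hPP1'.trans (hpow j))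
      have hgcd : ∀ p ∈ pr A (A ^ j * P), Nat.gcd q p = 1 := by
        intro p hp
        have h1 := mem_pr.1 hp
        have h2 := hpow j
        refine ((Nat.Prime.coprime_iff_not_dvd h1.2).2 fun h3 => ?_).symm
        have h4 := Nat.le_of_dvd (by omega) h3
        omega
      obtain ⟨K, hK⟩ := avJ q b A (A ^ j * P) k m1 hgcd (by omega) ((by omega : 1 ≤ P).trans (hpow j)) hm1 (hcard j hj) (ε / 64) δ
        (by positivity) hδ0.le X2 hX2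
      exact ⟨K, fun _ => hK⟩
    · exact ⟨0, fun h => absurd h hj⟩
  choose K hK using hK
  set K' : ℝ := ∑ j ∈ range J, |K j| with hK'
  have hK0 : 0 ≤ K' := sum_nonneg fun _ _ => abs_nonneg _
  refine ⟨max m1 ⌈Real.exp ((K' + ε / 4) / (3 * ε / 4))⌉₊, fun Z hZ => ?_⟩
  have hZ1 : m1 ≤ Z := (le_max_left _ _).trans hZ
  have hZ2 : Real.exp ((K' + ε / 4) / (3 * ε / 4)) ≤ Z := by
    refine (Nat.le_ceil _).trans ?_
    exact_mod_cast (le_max_right _ _).trans hZ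
  have hZpos : (0 : ℝ) < Z := (Real.exp_pos _).trans_le hZ2
  have hlog : (K' + ε / 4) / (3 * ε / 4) ≤ Real.log Z := (Real.le_log_iff_exp_le hZpos).2 hZ2
  rw [div_le_iff₀ (by positivity)] at hlog
  obtain ⟨j, hj, hjm⟩ := hmain Z hZ1
  have h1 := hK j hj Z hZ1 hjm
  have h2 : K j ≤ K' := (le_abs_self _).trans (single_le_sum (f := fun j => |K j|) (fun _ _ => abs_nonneg _) (mem_range.2 hj))
  rw [hsq] at h1
  have h3 : (12 * (ε / 96) + 8 * (ε / 64)) * (1 + Real.log Z) = ε / 4 + ε / 4 * Real.log Z := by ring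
  rw [h3] at h1
  nlinarith

end Pool.Agent.LLR
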