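import Pool.Agent.LLR.Pk
import Pool.Agent.LLR.Two

set_option autoImplicit false

/-!
# Certificates with packed arrays

Relations: dilations by `p` and two-point correlations in residue classes.
-/

open Finset

namespace Pool.Agent.LLR

open Pool.Agent.LLO Pool.Agent.LSP

/-- the positive (`e = true`) or negative part of the value at the address `i` of the polynomial
with coefficient tree `t` -/
def vv : ℕ → T → Bool → ℕ → ℕ
  | 0, t, e, _ => if e then t.val.toNat else (-t.val).toNat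
  | k + 1, t, e, i => if i < 2 ^ k then vv k t.lc e i + vv k t.rc e i
      else vv k t.lc e (i - 2 ^ k) + vv k t.rc (!e) (i - 2 ^ k)

theorem cod_bd (k : ℕ) (s : ℕ → Bool) : cod k s < 2 ^ k := by
  induction k with
  | zero => simp [cod]
  | succ k ih =>
    rw [cod, pow_succ]
    split_ifs <;> omega

theorem pv_vv (k : ℕ) (t : T) (s : ℕ → Bool) :
    T.pv k t s = (vv k t true (cod k s) : ℤ) - vv k t false (cod k s) := by
  induction k generalizing t with
  | zero =>
    show t.val = ((if true = true then t.val.toNat else (-t.val).toNat : ℕ) : ℤ) -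
      ((if false = true then t.val.toNat else (-t.val).toNat : ℕ) : ℤ)
    rw [if_pos rfl, if_neg (by simp)]
    omega
  | succ k ih =>
    have hb := cod_bd k s
    show T.pv k t.lc s + (if s k then -T.pv k t.rc s else T.pv k t.rc s) = _
    rw [ih, ih]
    cases hs : s k
    · have hc : cod (k + 1) s = cod k s := by simp [cod, hs]
      rw [hc]
      simp only [vv, hb, if_true, Bool.false_eq_true, if_false]
      push_cast
      ring
    · have hc : cod (k + 1) s = cod k s + 2 ^ k := by simp [cod, hs]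
      rw [hc]
      have h1 : ¬ cod k s + 2 ^ k < 2 ^ k := by omega
      simp only [vv, h1, if_true, if_false, Nat.add_sub_cancel, Bool.not_true, Bool.not_false]
      push_cast
      ring

/-- bound for `vv` -/
def nrm : ℕ → T → ℕ
  | 0, t => t.val.natAbs
  | k + 1, t =>
    match t with
    | T.node a b => nrm k a + nrm k b
    | _ => 0

theorem vv_z (k : ℕ) (e : Bool) (i : ℕ) : vv k T.z e i = 0 := by
  induction k generalizing e i with
  | zero => cases e <;> simp [vv, T.val]
  | succ k ih =>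
    have hl : T.z.lc = T.z := rfl
    have hr : T.z.rc = T.z := rfl
    rw [vv, hl, hr]
    split_ifs <;> simp [ih]

theorem vv_leaf (k : ℕ) (a : ℤ) (e : Bool) (i : ℕ) : vv (k + 1) (T.leaf a) e i = 0 := by
  have hl : (T.leaf a).lc = T.z := rfl
  have hr : (T.leaf a).rc = T.z := rfl
  rw [vv, hl, hr]
  split_ifs <;> simp [vv_z]

theorem vv_le (k : ℕ) (t : T) (e : Bool) (i : ℕ) : vv k t e i ≤ nrm k t := by
  induction k generalizing t e i with
  | zero =>
    rw [vv, nrm]
    split_ifs <;> omega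
  | succ k ih =>
    cases t with
    | z => rw [vv_z]; exact Nat.zero_le _
    | leaf a => rw [vv_leaf]; exact Nat.zero_le _
    | node a b =>
      rw [vv, nrm]
      show (if i < 2 ^ k then vv k a e i + vv k b e i else vv k a e (i - 2 ^ k) + vv k b (!e) (i - 2 ^ k)) ≤ _
      split_ifs
      · exact Nat.add_le_add (ih _ _ _) (ih _ _ _)
      · exact Nat.add_le_add (ih _ _ _) (ih _ _ _)

/-- the packed array of `vv` -/
def whn (W : ℕ) : ℕ → T → Bool → ℕ
  | 0, t, true => t.val.toNat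
  | 0, t, false => (-t.val).toNat
  | k + 1, T.node a b, true =>
    (whn W k a true + whn W k b true) + (whn W k a true + whn W k b false) <<< (W * 2 ^ k)
  | k + 1, T.node a b, false =>
    (whn W k a false + whn W k b false) + (whn W k a false + whn W k b true) <<< (W * 2 ^ k)
  | _ + 1, T.z, _ => 0
  | _ + 1, T.leaf _, _ => 0

theorem whn_eq (W k : ℕ) (t : T) (e : Bool) : whn W k t e = pk (2 ^ W) (2 ^ k) (vv k t e) := by
  induction k generalizing t e with
  | zero => cases e <;> simp [whn, pk, vv]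
  | succ k ih =>
    cases t with
    | z =>
      have h1 : whn W (k + 1) T.z e = 0 := by cases e <;> rfl
      rw [h1, pk_congr (fun i _ => vv_z (k + 1) e i), pk_zero]
    | leaf a =>
      have h1 : whn W (k + 1) (T.leaf a) e = 0 := by cases e <;> rfl
      rw [h1, pk_congr (fun i _ => vv_leaf k a e i), pk_zero]
    | node a b =>
      have h1 : whn W (k + 1) (T.node a b) e =
          (whn W k a e + whn W k b e) + (whn W k a e + whn W k b (!e)) <<< (W * 2 ^ k) := by
        cases e <;> rfl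
      rw [h1, ih, ih, ih, pk_add, pk_add, shl, pow_succ, mul_two, pk_app]
      congr 1
      · refine pk_congr fun i hi => ?_
        rw [vv, if_pos hi]
        rfl
      · congr 1
        refine pk_congr fun i hi => ?_
        rw [vv, if_neg (by omega), Nat.add_sub_cancel_left]
        rfl

theorem cod_mod (m k : ℕ) (s : ℕ → Bool) : cod (m + k) s % 2 ^ m = cod m s := by
  induction k with
  | zero => exact Nat.mod_eq_of_lt (cod_bd m s)
  | succ k ih =>
    rw [← add_assoc, cod]
    split_ifs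
    · rw [pow_add, Nat.add_mul_mod_self_left, ih]
    · rw [add_zero, ih]

theorem cod_div (k : ℕ) (s : ℕ → Bool) : cod (k + 1) s / 2 = cod k (fun i => s (i + 1)) := by
  induction k with
  | zero =>
    simp only [cod]
    split_ifs <;> rfl
  | succ k ih =>
    show (cod (k + 1) s + (if s (k + 1) then 2 ^ (k + 1) else 0)) / 2 =
      cod k (fun i => s (i + 1)) + (if s (k + 1) then 2 ^ k else 0)
    rw [← ih]
    split_ifs
    · rw [pow_succ]
      omega
    · omega

/-- the coefficient tree of the two-point correlations `t.1 λ(n) λ(n + t.2.1) 1_{n = t.2.2 mod M}` -/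
def tsR (L r : ℕ) : List (ℤ × ℕ × ℕ) → T
  | [] => T.z
  | t :: l => T.add L true (tsR L r l) (if r = t.2.2 then T.sing L (imask 0 t.2.1) t.1 else T.z)

/-- the coefficient tree of all the relations -/
def totR (L M : ℕ) (ts : List (ℤ × ℕ × ℕ)) (r : ℕ) : List Gen → T
  | [] => tsR L r ts
  | g :: l => T.add L true (totR L M ts r l) (g.tree L M r)

theorem tsR_null {L M : ℕ} (hM : 1 ≤ M) (ts : List (ℤ × ℕ × ℕ))
    (ht : ∀ t ∈ ts, 1 ≤ t.2.1 ∧ t.2.1 ≤ L ∧ t.2.2 < M) :
    Null (fun n => ((T.pv L (tsR L (n % M) ts) (sn n) : ℤ) : ℝ)) := by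
  induction ts with
  | nil =>
    refine null_zero.congr fun n _ => ?_
    rw [tsR, T.pv_z, Int.cast_zero]
  | cons t ts ih =>
    have h1 := ht t (by simp)
    refine ((ih fun x hx => ht x (by simp [hx])).add
      ((null_two_res M t.2.2 t.2.1 hM h1.1).mul (t.1 : ℝ))).congr fun n _ => ?_
    rw [tsR, T.pv_add, if_pos rfl, Nat.mod_eq_of_lt h1.2.2]
    push_cast
    congr 1
    unfold lr
    split_ifs with h
    · rw [T.pv_sing]
      push_cast
      rw [chi_imask L 0 t.2.1 (Nat.zero_le _) h1.2.1, add_zero]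
    · rw [T.pv_z]
      simp

theorem totR_null {L M : ℕ} (hM : 1 ≤ M) (gs : List Gen) (ts : List (ℤ × ℕ × ℕ))
    (hg : ∀ g ∈ gs, g.ok L M = true) (ht : ∀ t ∈ ts, 1 ≤ t.2.1 ∧ t.2.1 ≤ L ∧ t.2.2 < M) :
    Null (fun n => ((T.pv L (totR L M ts (n % M) gs) (sn n) : ℤ) : ℝ)) := by
  induction gs with
  | nil => exact tsR_null hM ts ht
  | cons g gs ih =>
    have h1 := hg g (by simp)
    refine ((ih fun x hx => hg x (by simp [hx])).add (Gen.null h1)).congr fun n _ => ?_
    rw [totR, T.pv_add, if_pos rfl]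
    push_cast
    rw [Gen.tree_eq h1]

/-- a certificate: window of `k + 4` sign changes, residues mod `M`; the potentials are packed in
numbers with digits of `w` bits, the arithmetic is done with digits of `W` bits -/
structure CerN where
  k : ℕ
  M : ℕ
  D : ℕ
  K : ℕ
  w : ℕ
  W : ℕ
  gs : List Gen
  ts : List (ℤ × ℕ × ℕ)
  P : List ℕ

/-- admissibility of a certificate -/
def CerN.base (c : CerN) : Bool :=
  decide (0 < c.M) && decide (0 < c.D) && decide (0 < c.K) && decide (1 ≤ c.W) &&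
  (c.gs.all fun g => g.ok (c.k + 4) c.M) &&
  (c.ts.all fun t => decide (1 ≤ t.2.1) && decide (t.2.1 ≤ c.k + 4) && decide (t.2.2 < c.M))

/-- the check with a given coefficient tree -/
def CerN.chkT (c : CerN) (f : ℕ → Bool) (t : T) (p q : ℕ) : Bool :=
  Nat.blt (c.K + 2 ^ c.w + nrm (c.k + 4) t) (2 ^ (c.W - 1)) &&
  Nat.blt (c.D + 2 ^ c.w + nrm (c.k + 4) t) (2 ^ c.W) &&
  fin3 (rpt c.W (c.k + 4) 0 c.K + dpl c.w c.W (c.k + 3) q + whn c.W (c.k + 4) t true)
    (rpt c.W c.k 4 (ccs c.W c.D f 4 0) + rpt c.W 1 (c.k + 3) (spr c.w c.W (c.k + 3) p) +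
      whn c.W (c.k + 4) t false) (top c.W (c.k + 4))

/-- the check of a certificate at the residue `r` -/
def CerN.chkR (c : CerN) (f : ℕ → Bool) (r : ℕ) : Bool :=
  c.chkT f (totR (c.k + 4) c.M c.ts r c.gs) (c.P.getD r 0) (c.P.getD ((r + 1) % c.M) 0)

theorem CerN.chkT_sound (c : CerN) (f : ℕ → Bool) (t : T) (p q : ℕ) (hW : 1 ≤ c.W)
    (h : c.chkT f t p q = true) (s : ℕ → Bool) :
    (c.K : ℤ) + dg c.w (cod (c.k + 3) (fun i => s (i + 1))) q + T.pv (c.k + 4) t s ≤
      (if f (cod 4 s) then (c.D : ℤ) else 0) + dg c.w (cod (c.k + 3) s) p := by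
  unfold CerN.chkT at h
  rw [Bool.and_eq_true, Bool.and_eq_true] at h
  obtain ⟨⟨h1, h2⟩, h3⟩ := h
  rw [Nat.blt_eq] at h1 h2
  set L := c.k + 4 with hL
  have eK : rpt c.W L 0 c.K = pk (2 ^ c.W) (2 ^ L) (fun _ => c.K) := by
    have e1 : c.K = pk (2 ^ c.W) (2 ^ 0) (fun _ => c.K) := by simp [pk]
    conv_lhs => rw [e1]
    rw [rpt_eq, zero_add]
  have eq' : dpl c.w c.W (c.k + 3) q = pk (2 ^ c.W) (2 ^ L) (fun i => dg c.w (i / 2) q) :=
    dpl_eq c.w c.W (c.k + 3) q
  have ep : rpt c.W 1 (c.k + 3) (spr c.w c.W (c.k + 3) p) =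
      pk (2 ^ c.W) (2 ^ L) (fun i => dg c.w (i % 2 ^ (c.k + 3)) p) := by
    rw [spr_eq, rpt_eq]
  have ec : rpt c.W c.k 4 (ccs c.W c.D f 4 0) =
      pk (2 ^ c.W) (2 ^ L) (fun i => if f (i % 2 ^ 4) then c.D else 0) := by
    rw [ccs_eq, rpt_eq, show 4 + c.k = L by omega]
    exact pk_congr fun i _ => by rw [zero_add]
  rw [eK, eq', ep, ec, whn_eq, whn_eq, pk_add, pk_add, pk_add, pk_add] at h3
  have h4 := fin3_sound c.W L hW _ _ (fun i _ => ?_) (fun i _ => ?_) h3 (cod L s) (cod_bd L s)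
  · have e1 : cod L s / 2 = cod (c.k + 3) (fun i => s (i + 1)) := cod_div (c.k + 3) s
    have e2 : cod L s % 2 ^ (c.k + 3) = cod (c.k + 3) s := cod_mod (c.k + 3) 1 s
    have e3 : cod L s % 2 ^ 4 = cod 4 s := by
      have := cod_mod 4 c.k s
      rwa [show 4 + c.k = L by omega] at this
    rw [e1, e2, e3] at h4
    rw [pv_vv]
    split_ifs at h4 ⊢ <;> omega
  · have h5 := dg_lt c.w (i / 2) q
    have h6 := vv_le L t true i
    omega
  · have h5 := dg_lt c.w (i % 2 ^ (c.k + 3)) p
    have h6 := vv_le L t false i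
    split_ifs <;> omega

/-- the check of a certificate for the cost function `f` -/
def CerN.chk (c : CerN) (f : ℕ → Bool) : Bool := c.base && (List.range c.M).all fun r => c.chkR f r

theorem CerN.chk_of {c : CerN} {f : ℕ → Bool} (hb : c.base = true) (h : ∀ r < c.M, c.chkR f r = true) :
    c.chk f = true := by
  rw [CerN.chk, hb, Bool.true_and, List.all_eq_true]
  intro r hr
  exact h r (List.mem_range.1 hr)

/-- the set `{n : cod 4 (sn n) ∈ f}` has positive lower logarithmic density -/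
theorem CerN.sound (c : CerN) (f : ℕ → Bool) (h : c.chk f = true) (δ : ℝ) (hδ : δ * c.D < c.K) :
    ∃ Z0 : ℕ, ∀ Z : ℕ, Z0 ≤ Z →
      δ * Real.log Z ≤ LS (fun n => if f (cod 4 (sn n)) = true then 1 else 0) Z := by
  simp only [CerN.chk, CerN.base, Bool.and_eq_true, decide_eq_true_eq, List.all_eq_true,
    List.mem_range] at h
  obtain ⟨⟨⟨⟨⟨⟨hM, hD⟩, hK⟩, hW⟩, hg⟩, ht⟩, hc⟩ := h
  set L := c.k + 4 with hL
  set pot : ℕ → ℝ := fun n => ((dg c.w (cod (c.k + 3) (sn n)) (c.P.getD (n % c.M) 0) : ℕ) : ℝ) with hpot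
  have hB : ∀ n, |pot n| ≤ 2 ^ c.w := by
    intro n
    rw [hpot]
    dsimp only
    rw [Nat.abs_cast]
    exact_mod_cast (dg_lt _ _ _).le
  set V : ℕ → ℝ := fun n => ((T.pv L (totR L c.M c.ts (n % c.M) c.gs) (sn n) : ℤ) : ℝ) with hV
  have hVn : Null V := totR_null hM c.gs c.ts hg fun t h' => ⟨(ht t h').1.1, (ht t h').1.2, (ht t h').2⟩
  have hS : Null (fun n => pot (n + 1) - pot n) := null_shift hB
  -- pointwise inequality
  have hpt : ∀ n : ℕ, (c.K : ℝ) + ((pot (n + 1) - pot n) + V n) ≤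
      c.D * (if f (cod 4 (sn n)) = true then 1 else 0) := by
    intro n
    have h1 := CerN.chkT_sound c f _ _ _ hW (hc (n % c.M) (Nat.mod_lt _ hM)) (sn n)
    rw [sn_succ, Nat.mod_add_mod] at h1
    have h2 : (((c.K : ℤ) + dg c.w (cod (c.k + 3) (sn (n + 1))) (c.P.getD ((n + 1) % c.M) 0) +
        T.pv L (totR L c.M c.ts (n % c.M) c.gs) (sn n) : ℤ) : ℝ) ≤
        (((if f (cod 4 (sn n)) then (c.D : ℤ) else 0) +
          dg c.w (cod (c.k + 3) (sn n)) (c.P.getD (n % c.M) 0) : ℤ) : ℝ) := by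
      exact_mod_cast h1
    rw [hpot, hV]
    dsimp only
    push_cast at h2
    split_ifs at h2 ⊢ <;> linarith
  have hN : Null (fun n => (pot (n + 1) - pot n) + V n) := hS.add hVn
  have hDr : (0 : ℝ) < c.D := by exact_mod_cast hD
  obtain ⟨Z0, hZ0⟩ := hN (c.K - δ * c.D) (by linarith)
  refine ⟨Z0, fun Z hZ => ?_⟩
  have h1 := hZ0 Z hZ
  have h2 := LS_mono (f := fun n => (c.K : ℝ) * 1 + ((pot (n + 1) - pot n) + V n))
    (g := fun n => (c.D : ℝ) * (if f (cod 4 (sn n)) = true then 1 else 0))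
    (fun n _ => by have := hpt n; linarith) Z
  rw [LS_add (fun n => (c.K : ℝ) * 1), LS_mul, LS_mul] at h2
  have h3 := log_le_LS Z
  have h4 : (c.K : ℝ) * Real.log Z ≤ c.K * LS (fun _ => 1) Z :=
    mul_le_mul_of_nonneg_left h3 (by exact_mod_cast hK.le)
  have h5 : -((c.K - δ * c.D) * Real.log Z) ≤ LS (fun n => (pot (n + 1) - pot n) + V n) Z := (abs_le.1 h1).1
  have h6 : δ * c.D * Real.log Z ≤ c.D * LS (fun n => if f (cod 4 (sn n)) = true then 1 else 0) Z := by
    linarith
  have h7 : c.D * (δ * Real.log Z) ≤ c.D * LS (fun n => if f (cod 4 (sn n)) = true then 1 else 0) Z := by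
    linarith
  exact le_of_mul_le_mul_left h7 hDr

end Pool.Agent.LLR
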