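import Pool.Agent.LLR.CerN

set_option autoImplicit false

/-!
# Patterns of positive lower logarithmic density
-/

open Finset

namespace Pool.Agent.LLR

open Pool.Agent.LLO Pool.Agent.LSP

open Classical in
/-- the set of the `n ≥ 1` at which `e` or `-e` occurs has lower logarithmic density at least `δ`:
`∑ 1 / n` over these `n ≤ Z` is at least `δ log Z` for all large `Z` -/
def LowDens (δ : ℝ) (e : Fin 5 → ℤ) : Prop :=
  ∃ Z0 : ℕ, ∀ Z : ℕ, Z0 ≤ Z →
    δ * Real.log Z ≤ ∑ n ∈ (Icc 1 Z).filter (fun n => OccPM e n), 1 / (n : ℝ)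

theorem LS_next (g : ℕ → ℝ) (hg : ∀ n, 0 ≤ g n ∧ g n ≤ 1) (Z : ℕ) :
    LS g Z ≤ 1 + ∑ n ∈ Icc 1 Z, g (n + 1) / n := by
  have key : ∀ Z : ℕ, LS g (Z + 1) ≤ 1 + ∑ n ∈ Icc 1 Z, g (n + 1) / n := by
    intro Z
    induction Z with
    | zero =>
      simp only [LS]
      simpa using (hg 1).2
    | succ Z ih =>
      rw [LS_succ, sum_Icc_succ_top (by omega)]
      have h5 : g (Z + 1 + 1) / (((Z + 1 : ℕ) : ℝ) + 1) ≤ g (Z + 1 + 1) / ((Z + 1 : ℕ) : ℝ) := by
        refine div_le_div_of_nonneg_left (hg _).1 ?_ (by linarith)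
        exact_mod_cast Nat.succ_pos Z
      linarith
  rcases Nat.eq_zero_or_pos Z with rfl | hZ
  · simp [LS]
  · obtain ⟨Y, rfl⟩ := Nat.exists_eq_succ_of_ne_zero hZ.ne'
    refine (key Y).trans ?_
    rw [Nat.succ_eq_add_one, sum_Icc_succ_top (by omega)]
    have : 0 ≤ g (Y + 1 + 1) / ((Y + 1 : ℕ) : ℝ) := div_nonneg (hg _).1 (Nat.cast_nonneg _)
    linarith

/-- from certificates to the lower density of a pattern -/
theorem low_of {e : Fin 5 → ℤ} (he : ∀ m, e m = 1 ∨ e m = -1) {w : ℕ} (hw : code e = w) {δ δ' : ℝ}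
    (hδ : δ < δ') (h : ∃ Z0 : ℕ, ∀ Z : ℕ, Z0 ≤ Z →
      δ' * Real.log Z ≤ LS (fun n => if (fun W => W == w) (cod 4 (sn n)) = true then 1 else 0) Z) :
    LowDens δ e := by
  subst hw
  obtain ⟨Z0, h0⟩ := h
  refine ⟨max Z0 ⌈Real.exp (1 / (δ' - δ))⌉₊, fun Z hZ => ?_⟩
  have h1 := h0 Z ((le_max_left _ _).trans hZ)
  have h2 : Real.exp (1 / (δ' - δ)) ≤ Z := (Nat.le_ceil _).trans (by exact_mod_cast (le_max_right _ _).trans hZ)
  have h3 : (0 : ℝ) < Z := (Real.exp_pos _).trans_le h2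
  have h4 : 1 / (δ' - δ) ≤ Real.log Z := (Real.le_log_iff_exp_le h3).2 h2
  have hd : 0 < δ' - δ := by linarith
  rw [div_le_iff₀ hd] at h4
  have h5 := LS_next (fun n => if (fun W => W == code e) (cod 4 (sn n)) = true then 1 else 0)
    (fun n => by dsimp only; split_ifs <;> norm_num) Z
  classical
  have h6 : ∑ n ∈ (Icc 1 Z).filter (fun n => OccPM e n), 1 / (n : ℝ) =
      ∑ n ∈ Icc 1 Z, (if (fun W => W == code e) (cod 4 (sn (n + 1))) = true then (1 : ℝ) else 0) / n := by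
    rw [sum_filter]
    refine sum_congr rfl fun n _ => ?_
    by_cases h : OccPM e n
    · rw [if_pos h, if_pos (beq_iff_eq.2 ((occPM_iff he n).1 h))]
    · rw [if_neg h, if_neg fun h' => h ((occPM_iff he n).2 (beq_iff_eq.1 h')), zero_div]
  have h7 : δ * Real.log Z ≤ ∑ n ∈ (Icc 1 Z).filter (fun n => OccPM e n), 1 / (n : ℝ) := by
    rw [h6]
    nlinarith
  convert h7

/-- a pattern with positive lower density is not rare -/
theorem LowDens.not_rare {δ : ℝ} (hδ : 0 < δ) {e : Fin 5 → ℤ} (h : LowDens δ e) : ¬ Rare e := by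
  intro hr
  obtain ⟨Z0, h0⟩ := h
  obtain ⟨Z1, h1⟩ := hr (δ / 2) (by positivity)
  have h2 := h0 (max (max Z0 Z1) 3) ((le_max_left _ _).trans (le_max_left _ _))
  have h3 := h1 (max (max Z0 Z1) 3) ((le_max_right _ _).trans (le_max_left _ _))
  have h4 : (3 : ℝ) ≤ ((max (max Z0 Z1) 3 : ℕ) : ℝ) := by exact_mod_cast le_max_right _ _
  have h5 : 0 < Real.log ((max (max Z0 Z1) 3 : ℕ) : ℝ) := Real.log_pos (by linarith)
  have h6 := h2.trans h3
  nlinarith

end Pool.Agent.LLR
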