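import Pool.Agent.LLR.Td

set_option autoImplicit false

/-! The check of the certificate `td`, residues 9 to 11. -/

namespace Pool.Agent.LLR

theorem td_r9 : td.chkR (fun W => W == 3 || W == 9 || W == 12) 9 = true := by decide +kernel

theorem td_r10 : td.chkR (fun W => W == 3 || W == 9 || W == 12) 10 = true := by decide +kernel

theorem td_r11 : td.chkR (fun W => W == 3 || W == 9 || W == 12) 11 = true := by decide +kernel

end Pool.Agent.LLR
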