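import Pool.Agent.LLR.Td0
import Pool.Agent.LLR.Td1
import Pool.Agent.LLR.Td2
import Pool.Agent.LLR.Td3

set_option autoImplicit false

/-! The check of the certificate `td`. -/

namespace Pool.Agent.LLR

theorem td_chk : td.chk (fun W => W == 3 || W == 9 || W == 12) = true := by
  refine CerN.chk_of td_base fun r hr => ?_
  replace hr : r < 12 := hr
  interval_cases r
  · exact td_r0
  · exact td_r1
  · exact td_r2
  · exact td_r3
  · exact td_r4
  · exact td_r5
  · exact td_r6
  · exact td_r7
  · exact td_r8
  · exact td_r9
  · exact td_r10
  · exact td_r11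

end Pool.Agent.LLR
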