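import Pool.Agent.LSP.Classes
import Pool.Agent.LLR.Freq
import Pool.Agent.LLR.Da
import Pool.Agent.LLR.Db
import Pool.Agent.LLR.Dc
import Pool.Agent.LLR.Dd
import Pool.Agent.LLR.Ta
import Pool.Agent.LLR.Tb
import Pool.Agent.LLR.Tc
import Pool.Agent.LLR.TdC

set_option autoImplicit false

/-!
# The weights of the classes of patterns
-/

open Finset

namespace Pool.Agent.LLR

open Pool.Agent.LLO Pool.Agent.LSP

/-- the sum of `1 / n` over the `n ≤ Z` at which the class `w` occurs -/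
noncomputable def S (w Z : ℕ) : ℝ :=
  ∑ n ∈ Icc 1 Z, (if cod 4 (sn (n + 1)) = w then (1 : ℝ) else 0) / n

/-- for all large `Z` the classes in `l` have together weight at least `δ log Z` -/
def Ev (l : List ℕ) (δ : ℝ) : Prop :=
  ∀ᶠ Z : ℕ in Filter.atTop, δ * Real.log Z ≤ (l.map fun w => S w Z).sum

private noncomputable def ind (l : List ℕ) (W : ℕ) : ℝ :=
  (l.map fun w => if W = w then (1 : ℝ) else 0).sum

private theorem ind_nonneg (l : List ℕ) (W : ℕ) : 0 ≤ ind l W := by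
  unfold ind
  refine List.sum_nonneg fun x hx => ?_
  rw [List.mem_map] at hx
  obtain ⟨w, -, rfl⟩ := hx
  split_ifs <;> norm_num

private theorem ind_one {l : List ℕ} {W : ℕ} (h : W ∈ l) : 1 ≤ ind l W := by
  induction l with
  | nil => exact absurd h List.not_mem_nil
  | cons a l ih =>
    have h1 : ind (a :: l) W = (if W = a then (1 : ℝ) else 0) + ind l W := by
      unfold ind
      rw [List.map_cons, List.sum_cons]
    rw [h1]
    rcases List.mem_cons.1 h with h2 | h2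
    · rw [if_pos h2]
      linarith [ind_nonneg l W]
    · have := ih h2
      split_ifs <;> linarith

private theorem sum_S (l : List ℕ) (Z : ℕ) :
    (l.map fun w => S w Z).sum = ∑ n ∈ Icc 1 Z, ind l (cod 4 (sn (n + 1))) / n := by
  induction l with
  | nil => simp [ind]
  | cons a l ih =>
    rw [List.map_cons, List.sum_cons, ih, S, ← sum_add_distrib]
    refine sum_congr rfl fun n _ => ?_
    unfold ind
    rw [List.map_cons, List.sum_cons, add_div]

/-- from the conclusion of a certificate to weights -/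
theorem ev_of {f : ℕ → Bool} {l : List ℕ} (hf : ∀ w, f w = true → w ∈ l) {δ δ' : ℝ} (hδ : δ < δ')
    (h : ∃ Z0 : ℕ, ∀ Z : ℕ, Z0 ≤ Z →
      δ' * Real.log Z ≤ LS (fun n => if f (cod 4 (sn n)) = true then 1 else 0) Z) : Ev l δ := by
  obtain ⟨Z0, h0⟩ := h
  refine Filter.eventually_atTop.2 ⟨max Z0 ⌈Real.exp (1 / (δ' - δ))⌉₊, fun Z hZ => ?_⟩
  have h1 := h0 Z ((le_max_left _ _).trans hZ)
  have h2 : Real.exp (1 / (δ' - δ)) ≤ Z := (Nat.le_ceil _).trans (by exact_mod_cast (le_max_right _ _).trans hZ)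
  have h3 : (0 : ℝ) < Z := (Real.exp_pos _).trans_le h2
  have h4 : 1 / (δ' - δ) ≤ Real.log Z := (Real.le_log_iff_exp_le h3).2 h2
  have hd : 0 < δ' - δ := by linarith
  rw [div_le_iff₀ hd] at h4
  have h5 := LS_next (fun n => if f (cod 4 (sn n)) = true then 1 else 0)
    (fun n => by split_ifs <;> norm_num) Z
  have h6 : ∑ n ∈ Icc 1 Z, (if f (cod 4 (sn (n + 1))) = true then (1 : ℝ) else 0) / n ≤
      (l.map fun w => S w Z).sum := by
    rw [sum_S]
    refine sum_le_sum fun n _ => div_le_div_of_nonneg_right ?_ (Nat.cast_nonneg n)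
    split_ifs with h8
    · exact ind_one (hf _ h8)
    · exact ind_nonneg _ _
  have h9 : LS (fun n => if f (cod 4 (sn n)) = true then 1 else 0) Z ≤ 1 + (l.map fun w => S w Z).sum :=
    h5.trans (add_le_add le_rfl h6)
  linarith

private theorem num_old (c : Cer) (D K m : ℤ) (hD : c.D = D) (hK : c.K = K) (hm : 0 < m) (h : D < m * K) :
    (1 / m : ℝ) * c.D < c.K := by
  rw [hD, hK]
  have h1 : (D : ℝ) < m * K := by exact_mod_cast h
  have h2 : (0 : ℝ) < m := by exact_mod_cast hm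
  rw [one_div, inv_mul_lt_iff₀ h2]
  exact h1

private theorem num_new (c : CerN) (D K m : ℕ) (hD : c.D = D) (hK : c.K = K) (hm : 0 < m) (h : D < m * K) :
    (1 / m : ℝ) * c.D < c.K := by
  rw [hD, hK]
  have h1 : (D : ℝ) < m * K := by exact_mod_cast h
  have h2 : (0 : ℝ) < m := by exact_mod_cast hm
  rw [one_div, inv_mul_lt_iff₀ h2]
  exact h1

private theorem pr (c : Cer) (a b : ℕ) (h : c.chk (fun W => W == a || W == b) = true) (D : ℤ) (hD : c.D = D)
    (hK : c.K = 1) (hm : D < 1630) : Ev [a, b] (1 / 1640) := by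
  refine ev_of (f := fun W => W == a || W == b) (fun w hw => ?_)
    (by norm_num : (1 / 1640 : ℝ) < 1 / (1630 : ℤ))
    (c.sound _ h _ (num_old c D 1 1630 hD hK (by norm_num) (by omega)))
  rw [Bool.or_eq_true, beq_iff_eq, beq_iff_eq] at hw
  rcases hw with rfl | rfl <;> simp

private theorem tr (c : CerN) (a b d : ℕ) (h : c.chk (fun W => W == a || W == b || W == d) = true) (D : ℕ)
    (hD : c.D = D) (hK : c.K = 1) (hm : D < 38500) : Ev [a, b, d] (1 / 39000) := by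
  refine ev_of (f := fun W => W == a || W == b || W == d) (fun w hw => ?_)
    (by norm_num : (1 / 39000 : ℝ) < 1 / (38500 : ℕ))
    (c.sound _ h _ (num_new c D 1 38500 hD hK (by norm_num) (by omega)))
  rw [Bool.or_eq_true, Bool.or_eq_true, beq_iff_eq, beq_iff_eq, beq_iff_eq] at hw
  rcases hw with (rfl | rfl) | rfl <;> simp

private theorem s1 (c : Cer) (a : ℕ) (h : c.chk (fun W => W == a) = true) (D K : ℤ) (hD : c.D = D)
    (hK : c.K = K) (hm : D < 2190 * K) : Ev [a] (1 / 2200) := by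
  refine ev_of (f := fun W => W == a) (fun w hw => ?_) (by norm_num : (1 / 2200 : ℝ) < 1 / (2190 : ℤ))
    (c.sound _ h _ (num_old c D K 2190 hD hK (by norm_num) hm))
  rw [beq_iff_eq] at hw
  simp [hw]

private theorem s2 (c : CerN) (a : ℕ) (h : c.chk (fun W => W == a) = true) (D K : ℕ) (hD : c.D = D)
    (hK : c.K = K) (hm : D < 2190 * K) : Ev [a] (1 / 2200) := by
  refine ev_of (f := fun W => W == a) (fun w hw => ?_) (by norm_num : (1 / 2200 : ℝ) < 1 / (2190 : ℕ))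
    (c.sound _ h _ (num_new c D K 2190 hD hK (by norm_num) hm))
  rw [beq_iff_eq] at hw
  simp [hw]

private theorem Ev.swap {a b : ℕ} {δ : ℝ} (h : Ev [a, b] δ) : Ev [b, a] δ := by
  unfold Ev at h ⊢
  filter_upwards [h] with Z hZ
  simp only [List.map_cons, List.map_nil, List.sum_cons, List.sum_nil] at hZ ⊢
  linarith

/-- the certificates for one class -/
private theorem ev_one : ∀ w ∈ [1, 7, 8, 14, 2, 11, 4, 13], Ev [w] (1 / 2200) := by
  refine List.forall_mem_cons.2 ⟨s1 c1 _ c1_chk 2215 11 rfl rfl (by norm_num), ?_⟩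
  refine List.forall_mem_cons.2 ⟨s1 c7 _ c7_chk 1886 17 rfl rfl (by norm_num), ?_⟩
  refine List.forall_mem_cons.2 ⟨s1 c8 _ c8_chk 2215 11 rfl rfl (by norm_num), ?_⟩
  refine List.forall_mem_cons.2 ⟨s1 c14 _ c14_chk 1886 17 rfl rfl (by norm_num), ?_⟩
  refine List.forall_mem_cons.2 ⟨s2 da _ da_chk 6400 3 rfl rfl (by norm_num), ?_⟩
  refine List.forall_mem_cons.2 ⟨s2 db _ db_chk 6400 3 rfl rfl (by norm_num), ?_⟩
  refine List.forall_mem_cons.2 ⟨s2 dc _ dc_chk 6400 3 rfl rfl (by norm_num), ?_⟩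
  refine List.forall_mem_cons.2 ⟨s2 dd _ dd_chk 6400 3 rfl rfl (by norm_num), ?_⟩
  exact fun w h => absurd h List.not_mem_nil

/-- the certificates for two classes -/
private theorem ev_two : ∀ a ∈ [0, 5, 10, 15], ∀ b ∈ [3, 6, 9, 12], Ev [a, b] (1 / 1640) := by
  refine List.forall_mem_cons.2 ⟨?_, ?_⟩
  · refine List.forall_mem_cons.2 ⟨pr c0_3 _ _ c0_3_chk 24 rfl rfl (by norm_num), ?_⟩
    refine List.forall_mem_cons.2 ⟨pr c0_6 _ _ c0_6_chk 24 rfl rfl (by norm_num), ?_⟩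
    refine List.forall_mem_cons.2 ⟨pr c0_9 _ _ c0_9_chk 249 rfl rfl (by norm_num), ?_⟩
    refine List.forall_mem_cons.2 ⟨pr c0_12 _ _ c0_12_chk 24 rfl rfl (by norm_num), ?_⟩
    exact fun w h => absurd h List.not_mem_nil
  refine List.forall_mem_cons.2 ⟨?_, ?_⟩
  · refine List.forall_mem_cons.2 ⟨(pr c3_5 _ _ c3_5_chk 24 rfl rfl (by norm_num)).swap, ?_⟩
    refine List.forall_mem_cons.2 ⟨pr c5_6 _ _ c5_6_chk 24 rfl rfl (by norm_num), ?_⟩
    refine List.forall_mem_cons.2 ⟨pr c5_9 _ _ c5_9_chk 24 rfl rfl (by norm_num), ?_⟩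
    refine List.forall_mem_cons.2 ⟨pr c5_12 _ _ c5_12_chk 1486 rfl rfl (by norm_num), ?_⟩
    exact fun w h => absurd h List.not_mem_nil
  refine List.forall_mem_cons.2 ⟨?_, ?_⟩
  · refine List.forall_mem_cons.2 ⟨(pr c3_10 _ _ c3_10_chk 1622 rfl rfl (by norm_num)).swap, ?_⟩
    refine List.forall_mem_cons.2 ⟨(pr c6_10 _ _ c6_10_chk 24 rfl rfl (by norm_num)).swap, ?_⟩
    refine List.forall_mem_cons.2 ⟨(pr c9_10 _ _ c9_10_chk 24 rfl rfl (by norm_num)).swap, ?_⟩
    refine List.forall_mem_cons.2 ⟨pr c10_12 _ _ c10_12_chk 24 rfl rfl (by norm_num), ?_⟩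
    exact fun w h => absurd h List.not_mem_nil
  refine List.forall_mem_cons.2 ⟨?_, fun w h => absurd h List.not_mem_nil⟩
  · refine List.forall_mem_cons.2 ⟨(pr c3_15 _ _ c3_15_chk 24 rfl rfl (by norm_num)).swap, ?_⟩
    refine List.forall_mem_cons.2 ⟨(pr c6_15 _ _ c6_15_chk 890 rfl rfl (by norm_num)).swap, ?_⟩
    refine List.forall_mem_cons.2 ⟨(pr c9_15 _ _ c9_15_chk 24 rfl rfl (by norm_num)).swap, ?_⟩
    refine List.forall_mem_cons.2 ⟨(pr c12_15 _ _ c12_15_chk 24 rfl rfl (by norm_num)).swap, ?_⟩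
    exact fun w h => absurd h List.not_mem_nil

private theorem t1 : Ev [3, 6, 9] (1 / 39000) := tr ta _ _ _ ta_chk 4800 rfl rfl (by norm_num)
private theorem t2 : Ev [6, 9, 12] (1 / 39000) := tr tb _ _ _ tb_chk 4800 rfl rfl (by norm_num)
private theorem t3 : Ev [3, 6, 12] (1 / 39000) := tr tc _ _ _ tc_chk 32000 rfl rfl (by norm_num)
private theorem t4 : Ev [3, 9, 12] (1 / 39000) := tr td _ _ _ td_chk 38400 rfl rfl (by norm_num)

/-- the class `w` has small weight up to `Z` -/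
def Low (Z w : ℕ) : Prop := S w Z < Real.log Z / 120000

private theorem ev_list {p : ℕ → ℕ → Prop} (l : List ℕ) (h : ∀ w ∈ l, ∀ᶠ Z : ℕ in Filter.atTop, p w Z) :
    ∀ᶠ Z : ℕ in Filter.atTop, ∀ w ∈ l, p w Z := by
  have := (Filter.eventually_all_finset (l := Filter.atTop) l.toFinset (p := p)).2
    fun w hw => h w (List.mem_toFinset.1 hw)
  filter_upwards [this] with Z hZ w hw
  exact hZ w (List.mem_toFinset.2 hw)

/-- all the certificates -/
theorem all_cert : ∀ᶠ Z : ℕ in Filter.atTop, 0 < Real.log Z ∧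
    (∀ w ∈ [1, 7, 8, 14, 2, 11, 4, 13], Real.log Z / 2200 ≤ S w Z) ∧
    (∀ a ∈ [0, 5, 10, 15], ∀ b ∈ [3, 6, 9, 12], ¬ (Low Z a ∧ Low Z b)) ∧
    ¬ (Low Z 3 ∧ Low Z 6 ∧ Low Z 9) ∧ ¬ (Low Z 6 ∧ Low Z 9 ∧ Low Z 12) ∧
    ¬ (Low Z 3 ∧ Low Z 6 ∧ Low Z 12) ∧ ¬ (Low Z 3 ∧ Low Z 9 ∧ Low Z 12) := by
  have h0 : ∀ᶠ Z : ℕ in Filter.atTop, 0 < Real.log Z := by
    refine Filter.eventually_atTop.2 ⟨3, fun Z hZ => Real.log_pos ?_⟩
    have : (3 : ℝ) ≤ (Z : ℝ) := by exact_mod_cast hZ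
    linarith
  have h1 := ev_list _ ev_one
  have h2 : ∀ᶠ Z : ℕ in Filter.atTop, ∀ a ∈ [0, 5, 10, 15], ∀ b ∈ [3, 6, 9, 12],
      1 / 1640 * Real.log Z ≤ ([a, b].map fun w => S w Z).sum :=
    ev_list _ fun a ha => ev_list (p := fun b Z => 1 / 1640 * Real.log Z ≤ ([a, b].map fun w => S w Z).sum) _
      (ev_two a ha)
  filter_upwards [h0, h1, h2, t1, t2, t3, t4] with Z hZ k1 k2 q1 q2 q3 q4
  simp only [List.map_cons, List.map_nil, List.sum_cons, List.sum_nil, add_zero] at k1 k2 q1 q2 q3 q4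
  unfold Low
  refine ⟨hZ, fun w hw => ?_, fun a ha b hb h => ?_, fun h => ?_, fun h => ?_, fun h => ?_, fun h => ?_⟩
  · have := k1 w hw
    linarith
  · have := k2 a ha b hb
    linarith [h.1, h.2]
  all_goals linarith [h.1, h.2.1, h.2.2]

end Pool.Agent.LLR
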