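import Pool.Agent.LLR.Sys
import Pool.Agent.LLO.PrA

set_option autoImplicit false

/-! Module Dyn: entropy decrement, as `LLO.Dyn`, for the letter with the residue modulo `q`. -/

open Finset

namespace Pool.Agent.LLR

open Pool.Agent.LLO

open Pool.Agent.FCH (ent rst wrd)

/-- bound for the entropy of one letter -/
noncomputable def Cq (q : ℕ) : ℝ := Real.log ((4 * q : ℕ) : ℝ)

private theorem Dyn_ent (q X : ℕ) (hq : 1 ≤ q) : ent (range X) (sr q X) ≤ Cq q := by
  classical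
  refine Pool.Agent.FCH.ent_le_log (range X) (sr q X) (4 * q) (by omega) ?_
  refine (Finset.card_le_card (t := (Finset.univ : Finset (Bool × Bool)) ×ˢ range q) ?_).trans ?_
  · intro y hy
    rw [@Finset.mem_image] at hy
    obtain ⟨a, -, rfl⟩ := hy
    rw [Finset.mem_product]
    exact ⟨Finset.mem_univ _, Finset.mem_range.2 (Nat.mod_lt _ (by omega))⟩
  · rw [Finset.card_product, Finset.card_range]
    simp

theorem dyn (q : ℕ) (hq : 1 ≤ q) (A P H J : ℕ) (hA : 2 ≤ A) (hP : 1 ≤ P) (hH : 1 ≤ H) : ∃ X0 : ℕ, ∀ X : ℕ, X0 ≤ X →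
    ∑ j ∈ range J, (1 / ((A ^ j * H : ℕ) : ℝ)) * dfr q X A (A ^ j * P) (A ^ j * H) ≤ Cq q + 1 := by
  have hA0 : 0 < A := by omega
  set U := (range J).biUnion (fun j => pr A (A ^ j * P)) with hUdef
  have hUp : ∀ p ∈ U, p.Prime := by
    intro p hp
    rw [hUdef, Finset.mem_biUnion] at hp
    obtain ⟨j, -, hj⟩ := hp
    exact (mem_pr.1 hj).2
  set M : ℕ := ∏ p ∈ U, p with hM
  refine ⟨J * M + 1, fun X hX => ?_⟩
  have hX1 : 1 ≤ X := by omega
  have hXr : (0 : ℝ) < X := by exact_mod_cast hX1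
  have hsh : ∀ a, a < X → sh X a < X := by
    intro a ha
    unfold sh
    split_ifs <;> omega
  have hmain := Pool.Agent.FCH.decr (range X) ⟨0, Finset.mem_range.2 (by omega)⟩ (sh X)
    (fun a ha => Finset.mem_range.2 (hsh a (Finset.mem_range.1 ha)))
    (by
      intro a ha a' ha' h
      rw [Finset.mem_range] at ha ha'
      unfold sh at h
      split_ifs at h <;> omega)
    (sr q X) (yo X) J (fun j => pr A (A ^ j * P)) (pr_disj A P hA) (fun p => p)
    (fun j _ p hp => (mem_pr.1 hp).2.one_lt.le)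
    (fun a _ j _ p hp => Nat.mod_lt _ (mem_pr.1 hp).2.pos)
    (by
      intro j _ p _ a ha a' ha' hf hy
      rw [Finset.mem_range] at ha ha'
      have h1 : decide (a + 1 = X) = decide (a' + 1 = X) := congrArg (fun z => z.1.2) hf
      have h2 : (a + 1 = X) ↔ (a' + 1 = X) := decide_eq_decide.1 h1
      by_cases h3 : a + 1 = X
      · have h4 := h2.1 h3
        have h5 : a = a' := by omega
        rw [h5]
      · have h4 : ¬ (a' + 1 = X) := fun h => h3 (h2.2 h)
        have h5 : sh X a = a + 1 := by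
          unfold sh
          rw [if_pos (by omega)]
        have h6 : sh X a' = a' + 1 := by
          unfold sh
          rw [if_pos (by omega)]
        rw [h5, h6]
        have h7 : X + a ≡ X + a' [MOD p] := hy
        have h8 : X + a + 1 ≡ X + a' + 1 [MOD p] := h7.add_right 1
        exact h8)
    A H hA0 hH
  have hD := crt X hX1 U hUp
  have hMc : (∏ p ∈ U, (p : ℝ)) = (M : ℝ) := by rw [hM]; push_cast; rfl
  rw [hMc] at hD
  set D : ℝ := ∑ p ∈ U, Real.log p - ent (range X) (fun a => rst U (yo X a)) with hDdef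
  have hw : ∀ j ∈ range J, (0 : ℝ) ≤ 1 / ((A ^ j * H : ℕ) : ℝ) ∧
      1 / ((A ^ j * H : ℕ) : ℝ) ≤ 1 := by
    intro j _
    have h1 : 1 ≤ A ^ j * H := Nat.mul_pos (Nat.pow_pos hA0) hH
    have h2 : (1 : ℝ) ≤ ((A ^ j * H : ℕ) : ℝ) := by exact_mod_cast h1
    refine ⟨by positivity, ?_⟩
    rw [div_le_one (by linarith)]
    exact h2
  have hsum : ∑ j ∈ range J, (1 / ((A ^ j * H : ℕ) : ℝ)) * dfr q X A (A ^ j * P) (A ^ j * H) -
      (∑ j ∈ range J, (1 / ((A ^ j * H : ℕ) : ℝ))) * D ≤ ent (range X) (sr q X) := by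
    rw [Finset.sum_mul, ← Finset.sum_sub_distrib]
    refine le_trans (le_of_eq ?_) hmain
    refine Finset.sum_congr rfl fun j _ => ?_
    rw [← mul_sub]
    rfl
  have hW1 : ∑ j ∈ range J, (1 / ((A ^ j * H : ℕ) : ℝ)) ≤ J := by
    refine (Finset.sum_le_sum fun j hj => (hw j hj).2).trans ?_
    rw [Finset.sum_const, Finset.card_range, nsmul_eq_mul, mul_one]
  have hW0 : 0 ≤ ∑ j ∈ range J, (1 / ((A ^ j * H : ℕ) : ℝ)) :=
    Finset.sum_nonneg fun j hj => (hw j hj).1
  have hMX : (M : ℝ) / X * J ≤ 1 := by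
    rw [div_mul_eq_mul_div, div_le_one hXr]
    have h1 : M * J ≤ X := by
      rw [mul_comm]
      omega
    exact_mod_cast h1
  have h1 : (∑ j ∈ range J, (1 / ((A ^ j * H : ℕ) : ℝ))) * D ≤ 1 := by
    have hM0 : (0 : ℝ) ≤ (M : ℝ) / X := by positivity
    calc (∑ j ∈ range J, (1 / ((A ^ j * H : ℕ) : ℝ))) * D
        ≤ (∑ j ∈ range J, (1 / ((A ^ j * H : ℕ) : ℝ))) * ((M : ℝ) / X) :=
          mul_le_mul_of_nonneg_left hD hW0
      _ ≤ J * ((M : ℝ) / X) := mul_le_mul_of_nonneg_right hW1 hM0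
      _ = (M : ℝ) / X * J := mul_comm _ _
      _ ≤ 1 := hMX
  have h2 := Dyn_ent q X hq
  linarith

end Pool.Agent.LLR
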