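import Pool.Agent.LLR.Sys

set_option autoImplicit false

/-! Module GG: the test function, as `LLO.GG`, with the residue class. -/

open Finset

namespace Pool.Agent.LLR

open Pool.Agent.LLO

open Pool.Agent.FCH (ent rst wrd)

/-- `Φ` -/
noncomputable def Phi (q t p k n : ℕ) : ℝ := lr q t n * lam (n + p * k) * ((if p ∣ n then (p : ℝ) else 0) - 1)

/-- the test function -/
noncomputable def gg (q : ℕ) (t : ℕ → ℕ) (X L k : ℕ) (c : ℕ → ℝ) (a p v : ℕ) : ℝ :=
  c p * ((∑ i ∈ range L, l0 (t p) (sr q X ((sh X)^[i] a)) * l1 (sr q X ((sh X)^[i + p * k] a)) *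
    ((if p ∣ v + i then (p : ℝ) else 0) - 1)) / L)

private def GG_G (p n : ℕ) : ℕ := p * ((n + (p - 1)) / p)

private theorem GG_succ {p : ℕ} (hp : 1 ≤ p) (n : ℕ) :
    GG_G p (n + 1) = GG_G p n + if p ∣ n then p else 0 := by
  unfold GG_G
  have e1 : n + 1 + (p - 1) = (n + (p - 1)) + 1 := by omega
  rw [e1, Nat.succ_div]
  have e2 : n + (p - 1) + 1 = n + p := by omega
  have e3 : (p ∣ n + (p - 1) + 1) ↔ p ∣ n := by
    rw [e2]
    exact Nat.dvd_add_left (dvd_refl p)
  by_cases h : p ∣ n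
  · rw [if_pos (e3.2 h), if_pos h, mul_add, mul_one]
  · rw [if_neg (fun h' => h (e3.1 h')), if_neg h, add_zero, add_zero]

private theorem GG_sum {p : ℕ} (hp : 1 ≤ p) (v L : ℕ) :
    ∑ i ∈ range L, (if p ∣ v + i then (p : ℝ) else 0) = (GG_G p (v + L) : ℝ) - GG_G p v := by
  induction L with
  | zero => simp
  | succ L ih =>
    rw [Finset.sum_range_succ, ih, ← add_assoc, GG_succ hp]
    push_cast
    split_ifs <;> ring

private theorem GG_le (p n : ℕ) : GG_G p n ≤ n + (p - 1) := Nat.mul_div_le _ _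

private theorem GG_ge {p : ℕ} (hp : 1 ≤ p) (n : ℕ) : n ≤ GG_G p n := by
  unfold GG_G
  have h1 := Nat.div_add_mod (n + (p - 1)) p
  have h2 := Nat.mod_lt (n + (p - 1)) (show 0 < p by omega)
  omega

private theorem GG_per {p : ℕ} (hp : 1 ≤ p) (n : ℕ) : GG_G p (n + p) = GG_G p n + p := by
  unfold GG_G
  have e1 : n + p + (p - 1) = (n + (p - 1)) + p := by omega
  rw [e1, Nat.add_div_right _ (show 0 < p by omega), mul_add, mul_one]

private theorem GG_m1 {x y z B : ℝ} (hx : |x| ≤ 1) (hy : |y| ≤ 1) (hz : |z| ≤ B) : |x * y * z| ≤ B := by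
  rw [abs_mul, abs_mul]
  have h1 : |x| * |y| ≤ 1 := mul_le_one₀ hx (abs_nonneg _) hy
  calc |x| * |y| * |z| ≤ 1 * |z| := mul_le_mul_of_nonneg_right h1 (abs_nonneg _)
    _ = |z| := one_mul _
    _ ≤ B := hz

private theorem GG_dv_abs {p : ℕ} (v : ℕ) :
    |(if p ∣ v then (p : ℝ) else 0) - 1| ≤ (if p ∣ v then (p : ℝ) else 0) + 1 := by
  have h : (0 : ℝ) ≤ if p ∣ v then (p : ℝ) else 0 := by
    split_ifs
    · exact Nat.cast_nonneg p
    · exact le_rfl
  rw [abs_le]
  constructor <;> linarith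

private theorem GG_dv_le {p : ℕ} (hp : 2 ≤ p) (v : ℕ) :
    |(if p ∣ v then (p : ℝ) else 0) - 1| ≤ p := by
  have hp' : (2 : ℝ) ≤ p := by exact_mod_cast hp
  rw [abs_le]
  split_ifs
  · constructor <;> linarith
  · constructor <;> linarith

theorem gg_word (q : ℕ) (t : ℕ → ℕ) (X L k H : ℕ) (c : ℕ → ℝ) (a a' p v : ℕ) (hH : L + p * k ≤ H)
    (h : wrd (sh X) (sr q X) H a = wrd (sh X) (sr q X) H a') : gg q t X L k c a p v = gg q t X L k c a' p v := by
  have key : ∀ i, i < H → sr q X ((sh X)^[i] a) = sr q X ((sh X)^[i] a') := fun i hi =>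
    congrFun h ⟨i, hi⟩
  unfold gg
  congr 2
  refine Finset.sum_congr rfl (fun i hi => ?_)
  rw [Finset.mem_range] at hi
  rw [key i (by omega), key (i + p * k) (by omega)]

theorem gg_mean (q : ℕ) (t : ℕ → ℕ) (X L k : ℕ) (c : ℕ → ℝ) (a p : ℕ) (hp : 1 ≤ p) : ∑ v ∈ range p, gg q t X L k c a p v = 0 := by
  unfold gg
  rw [← Finset.mul_sum, ← Finset.sum_div, Finset.sum_comm]
  have h1 : ∀ i ∈ range L, ∑ v ∈ range p, l0 (t p) (sr q X ((sh X)^[i] a)) *
      l1 (sr q X ((sh X)^[i + p * k] a)) * ((if p ∣ v + i then (p : ℝ) else 0) - 1) = 0 := by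
    intro i _
    rw [← Finset.mul_sum, Finset.sum_sub_distrib]
    have h2 : ∑ v ∈ range p, (if p ∣ v + i then (p : ℝ) else 0) = p := by
      have h3 := GG_sum hp i p
      rw [GG_per hp] at h3
      push_cast at h3
      have h4 : ∑ v ∈ range p, (if p ∣ v + i then (p : ℝ) else 0) =
          ∑ v ∈ range p, (if p ∣ i + v then (p : ℝ) else 0) :=
        Finset.sum_congr rfl (fun v _ => by rw [add_comm v i])
      rw [h4, h3]
      ring
    rw [h2, Finset.sum_const, card_range, nsmul_eq_mul, mul_one, sub_self, mul_zero]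
  rw [Finset.sum_eq_zero h1, zero_div, mul_zero]

theorem gg_bd (q : ℕ) (t : ℕ → ℕ) (X L k : ℕ) (c : ℕ → ℝ) (hc : ∀ p, |c p| ≤ 1) (a p v : ℕ) (hL : 1 ≤ L) (hpL : p ≤ L) (hp : 1 ≤ p) :
    |gg q t X L k c a p v| ≤ 3 := by
  have hL0 : (0 : ℝ) < L := by exact_mod_cast hL
  unfold gg
  rw [abs_mul, abs_div, Nat.abs_cast]
  have h1 : |∑ i ∈ range L, l0 (t p) (sr q X ((sh X)^[i] a)) * l1 (sr q X ((sh X)^[i + p * k] a)) *
      ((if p ∣ v + i then (p : ℝ) else 0) - 1)| ≤ 3 * L := by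
    refine (Finset.abs_sum_le_sum_abs _ _).trans ?_
    have h2 : ∀ i ∈ range L, |l0 (t p) (sr q X ((sh X)^[i] a)) * l1 (sr q X ((sh X)^[i + p * k] a)) *
        ((if p ∣ v + i then (p : ℝ) else 0) - 1)| ≤ (if p ∣ v + i then (p : ℝ) else 0) + 1 := by
      intro i _
      exact GG_m1 (l0_abs _ _) (l1_abs _) (GG_dv_abs (v + i))
    refine (Finset.sum_le_sum h2).trans ?_
    rw [Finset.sum_add_distrib, GG_sum hp, Finset.sum_const, card_range, nsmul_eq_mul, mul_one]
    have h3 : GG_G p (v + L) ≤ v + L + (p - 1) := GG_le p (v + L)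
    have h4 : v ≤ GG_G p v := GG_ge hp v
    have h5 : GG_G p (v + L) ≤ v + 2 * L := by omega
    have h6 : (GG_G p (v + L) : ℝ) ≤ v + 2 * L := by exact_mod_cast h5
    have h7 : (v : ℝ) ≤ GG_G p v := by exact_mod_cast h4
    linarith
  have h8 : |∑ i ∈ range L, l0 (t p) (sr q X ((sh X)^[i] a)) * l1 (sr q X ((sh X)^[i + p * k] a)) *
      ((if p ∣ v + i then (p : ℝ) else 0) - 1)| / L ≤ 3 := by
    rw [div_le_iff₀ hL0]
    exact h1
  calc |c p| * (|∑ i ∈ range L, l0 (t p) (sr q X ((sh X)^[i] a)) * l1 (sr q X ((sh X)^[i + p * k] a)) *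
      ((if p ∣ v + i then (p : ℝ) else 0) - 1)| / L) ≤ 1 * 3 :=
        mul_le_mul (hc p) h8 (by positivity) zero_le_one
    _ = 3 := one_mul 3

theorem gg_sum (q : ℕ) (t : ℕ → ℕ) (X L k H : ℕ) (c : ℕ → ℝ) (hc : ∀ p, |c p| ≤ 1) (p : ℕ) (hL : 1 ≤ L) (hpL : p ≤ L) (hp : 2 ≤ p) (hH : L + p * k ≤ H) :
    |∑ a ∈ range X, gg q t X L k c a p (yo X a p) - c p * ∑ n ∈ Ico X (2 * X), Phi q (t p) p k n| ≤ 4 * H * p := by
  have hL0 : (0 : ℝ) < L := by exact_mod_cast hL
  have hp0 : (0 : ℝ) ≤ p := Nat.cast_nonneg p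
  have hH0 : (0 : ℝ) ≤ H := Nat.cast_nonneg H
  set ψ : ℕ → ℕ → ℝ := fun a i => l0 (t p) (sr q X ((sh X)^[i] a)) * l1 (sr q X ((sh X)^[i + p * k] a)) *
      ((if p ∣ yo X a p + i then (p : ℝ) else 0) - 1) with hψ
  have hψb : ∀ a i, |ψ a i| ≤ p := by
    intro a i
    rw [hψ]
    dsimp only
    exact GG_m1 (l0_abs _ _) (l1_abs _) (GG_dv_le hp _)
  have hΦb : ∀ n, |Phi q (t p) p k n| ≤ p := by
    intro n
    unfold Phi
    exact GG_m1 (lr_abs _ _ _) (lam_abs _).le (GG_dv_le hp _)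
  have hψΦ : ∀ a i, a + (i + p * k) < X → ψ a i = Phi q (t p) p k (X + a + i) := by
    intro a i hai
    rw [hψ]
    dsimp only
    rw [sh_iter (show a + i < X by omega), sh_iter hai, l0_sr, l1_sr]
    unfold Phi yo
    have e1 : X + (a + i) = X + a + i := by ring
    have e2 : X + (a + (i + p * k)) = X + a + i + p * k := by ring
    rw [e1, e2]
    have e3 : (p ∣ (X + a) % p + i) ↔ p ∣ X + a + i := by
      rw [Nat.dvd_iff_mod_eq_zero, Nat.dvd_iff_mod_eq_zero, Nat.mod_add_mod]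
    simp only [e3]
  have hIcoR : ∑ n ∈ Ico X (2 * X), Phi q (t p) p k n = ∑ a ∈ range X, Phi q (t p) p k (X + a) := by
    rw [Finset.sum_Ico_eq_sum_range]
    have : 2 * X - X = X := by omega
    rw [this]
  -- for one `i`
  have hone : ∀ i ∈ range L, |∑ a ∈ range X, ψ a i - ∑ a ∈ range X, Phi q (t p) p k (X + a)| ≤
      2 * H * p := by
    intro i hi
    rw [Finset.mem_range] at hi
    by_cases hHX : H ≤ X
    · set M := X - H with hM
      have h1 : ∑ a ∈ range X, ψ a i = ∑ a ∈ range M, Phi q (t p) p k (X + a + i) +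
          ∑ a ∈ Ico M X, ψ a i := by
        rw [← Finset.sum_range_add_sum_Ico _ (show M ≤ X by omega)]
        congr 1
        refine Finset.sum_congr rfl (fun a ha => ?_)
        rw [Finset.mem_range] at ha
        exact hψΦ a i (by omega)
      have h2 : ∑ a ∈ range X, Phi q (t p) p k (X + a) = ∑ a ∈ range i, Phi q (t p) p k (X + a) +
          ∑ a ∈ range M, Phi q (t p) p k (X + a + i) + ∑ a ∈ Ico (M + i) X, Phi q (t p) p k (X + a) := by
        rw [← Finset.sum_range_add_sum_Ico _ (show M + i ≤ X by omega), add_comm M i,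
          Finset.sum_range_add]
        congr 2
        refine Finset.sum_congr rfl (fun a _ => ?_)
        congr 1
        ring
      have h3 : |∑ a ∈ Ico M X, ψ a i| ≤ H * p := by
        refine (Finset.abs_sum_le_sum_abs _ _).trans ?_
        refine (Finset.sum_le_sum (fun a _ => hψb a i)).trans ?_
        rw [Finset.sum_const, Nat.card_Ico, nsmul_eq_mul]
        have : X - M = H := by omega
        rw [this]
      have h4 : |∑ a ∈ range i, Phi q (t p) p k (X + a)| ≤ i * p := by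
        refine (Finset.abs_sum_le_sum_abs _ _).trans ?_
        refine (Finset.sum_le_sum (fun a _ => hΦb (X + a))).trans ?_
        rw [Finset.sum_const, card_range, nsmul_eq_mul]
      have h5 : |∑ a ∈ Ico (M + i) X, Phi q (t p) p k (X + a)| ≤ (H - i) * p := by
        refine (Finset.abs_sum_le_sum_abs _ _).trans ?_
        refine (Finset.sum_le_sum (fun a _ => hΦb (X + a))).trans ?_
        rw [Finset.sum_const, Nat.card_Ico, nsmul_eq_mul]
        have : X - (M + i) = H - i := by omega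
        rw [this, Nat.cast_sub (by omega)]
      rw [h1, h2]
      have h6 : ∑ a ∈ range M, Phi q (t p) p k (X + a + i) + ∑ a ∈ Ico M X, ψ a i -
          (∑ a ∈ range i, Phi q (t p) p k (X + a) + ∑ a ∈ range M, Phi q (t p) p k (X + a + i) +
            ∑ a ∈ Ico (M + i) X, Phi q (t p) p k (X + a)) = ∑ a ∈ Ico M X, ψ a i -
          ∑ a ∈ range i, Phi q (t p) p k (X + a) - ∑ a ∈ Ico (M + i) X, Phi q (t p) p k (X + a) := by ring
      rw [h6]
      rw [abs_le] at h3 h4 h5 ⊢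
      constructor <;> linarith [h3.1, h3.2, h4.1, h4.2, h5.1, h5.2]
    · have hXH : (X : ℝ) ≤ H := by
        have : X ≤ H := by omega
        exact_mod_cast this
      have h3 : |∑ a ∈ range X, ψ a i| ≤ X * p := by
        refine (Finset.abs_sum_le_sum_abs _ _).trans ?_
        refine (Finset.sum_le_sum (fun a _ => hψb a i)).trans ?_
        rw [Finset.sum_const, card_range, nsmul_eq_mul]
      have h4 : |∑ a ∈ range X, Phi q (t p) p k (X + a)| ≤ X * p := by
        refine (Finset.abs_sum_le_sum_abs _ _).trans ?_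
        refine (Finset.sum_le_sum (fun a _ => hΦb (X + a))).trans ?_
        rw [Finset.sum_const, card_range, nsmul_eq_mul]
      have h5 : (X : ℝ) * p ≤ H * p := mul_le_mul_of_nonneg_right hXH hp0
      rw [abs_le] at h3 h4 ⊢
      constructor <;> linarith [h3.1, h3.2, h4.1, h4.2]
  have e1 : ∑ a ∈ range X, gg q t X L k c a p (yo X a p) - c p * ∑ n ∈ Ico X (2 * X), Phi q (t p) p k n =
      c p * ((∑ i ∈ range L, (∑ a ∈ range X, ψ a i - ∑ a ∈ range X, Phi q (t p) p k (X + a))) / L) := by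
    have e2 : ∑ a ∈ range X, gg q t X L k c a p (yo X a p) =
        c p * ((∑ i ∈ range L, ∑ a ∈ range X, ψ a i) / L) := by
      rw [Finset.sum_comm, Finset.sum_div, Finset.mul_sum]
      rfl
    rw [e2, hIcoR, Finset.sum_sub_distrib, Finset.sum_const, card_range, nsmul_eq_mul, sub_div,
      mul_div_cancel_left₀ _ hL0.ne', mul_sub]
  rw [e1, abs_mul, abs_div, Nat.abs_cast]
  have h7 : |∑ i ∈ range L, (∑ a ∈ range X, ψ a i - ∑ a ∈ range X, Phi q (t p) p k (X + a))| / L ≤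
      2 * H * p := by
    rw [div_le_iff₀ hL0]
    refine (Finset.abs_sum_le_sum_abs _ _).trans ?_
    refine (Finset.sum_le_sum hone).trans ?_
    rw [Finset.sum_const, card_range, nsmul_eq_mul, mul_comm]
  have h8 : (0 : ℝ) ≤ H * p := by positivity
  calc |c p| * (|∑ i ∈ range L, (∑ a ∈ range X, ψ a i - ∑ a ∈ range X, Phi q (t p) p k (X + a))| / L)
      ≤ 1 * (2 * H * p) := mul_le_mul (hc p) h7 (by positivity) zero_le_one
    _ ≤ 4 * H * p := by linarith

end Pool.Agent.LLR
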