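import Pool.Agent.LSP.Rare

set_option autoImplicit false

/-!
# Arrays of natural numbers packed into one number

`pk B n a = ∑_{i < n} a i B^i`.  The pointwise inequality `a ≤ b` is read off from `pk b - pk a`.
-/

open Finset

namespace Pool.Agent.LLR

open Pool.Agent.LSP

/-- the packed array -/
def pk (B n : ℕ) (a : ℕ → ℕ) : ℕ := ∑ i ∈ range n, a i * B ^ i

theorem pk_congr {B n : ℕ} {a b : ℕ → ℕ} (h : ∀ i < n, a i = b i) : pk B n a = pk B n b :=
  sum_congr rfl fun i hi => by rw [h i (mem_range.1 hi)]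

theorem pk_add (B n : ℕ) (a b : ℕ → ℕ) : pk B n a + pk B n b = pk B n (fun i => a i + b i) := by
  unfold pk
  rw [← sum_add_distrib]
  exact sum_congr rfl fun i _ => by ring

theorem pk_app (B n m : ℕ) (a : ℕ → ℕ) :
    pk B (n + m) a = pk B n a + B ^ n * pk B m (fun i => a (n + i)) := by
  unfold pk
  rw [sum_range_add, mul_sum]
  congr 1
  exact sum_congr rfl fun i _ => by rw [pow_add]; ring

theorem pk_succ (B n : ℕ) (a : ℕ → ℕ) : pk B (n + 1) a = a 0 + B * pk B n (fun i => a (i + 1)) := by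
  unfold pk
  rw [sum_range_succ', mul_sum, add_comm]
  congr 1
  · simp
  · exact sum_congr rfl fun i _ => by rw [pow_succ]; ring

theorem pk_zero (B n : ℕ) : pk B n (fun _ => 0) = 0 := by simp [pk]

theorem shl (W k N : ℕ) : N <<< (W * k) = (2 ^ W) ^ k * N := by
  rw [Nat.shiftLeft_eq, pow_mul, mul_comm]

theorem tb_lt {W c : ℕ} (hW : 1 ≤ W) (h : c < 2 ^ W) (ht : c.testBit (W - 1) = false) : c < 2 ^ (W - 1) := by
  by_contra hcon
  push Not at hcon
  have h1 : 2 ^ W = 2 * 2 ^ (W - 1) := by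
    rw [← pow_succ']
    congr 1
    omega
  have h2 : c.testBit (W - 1) = true := by
    rw [Nat.testBit_eq_decide_div_mod_eq, decide_eq_true_eq]
    have h3 : c / 2 ^ (W - 1) = 1 := by
      rw [Nat.div_eq_iff (by positivity)]
      omega
    rw [h3]
  rw [h2] at ht
  exact absurd ht (by simp)

/-- comparison of packed arrays -/
theorem pk_cmp (W : ℕ) (hW : 1 ≤ W) (n : ℕ) : ∀ (a b : ℕ → ℕ) (C : ℕ), (∀ i < n, a i < 2 ^ (W - 1)) →
    (∀ i < n, b i < 2 ^ W) → pk (2 ^ W) n a + C = pk (2 ^ W) n b →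
    (∀ i < n, C.testBit (W * i + (W - 1)) = false) → ∀ i < n, a i ≤ b i := by
  induction n with
  | zero => intro a b C _ _ _ _ i hi; omega
  | succ n ih =>
    intro a b C ha hb hC ht i hi
    rw [pk_succ, pk_succ] at hC
    have hpos : 0 < 2 ^ W := by positivity
    have hW2 : 2 ^ (W - 1) + 2 ^ (W - 1) = 2 ^ W := by
      rw [← two_mul, ← pow_succ']
      congr 1
      omega
    have hdm := Nat.div_add_mod C (2 ^ W)
    have hc0 : C % 2 ^ W < 2 ^ (W - 1) := by
      refine tb_lt hW (Nat.mod_lt _ hpos) ?_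
      rw [Nat.testBit_mod_two_pow]
      have := ht 0 (by omega)
      simp only [mul_zero, zero_add] at this
      rw [this, Bool.and_false]
    have ha0 := ha 0 (by omega)
    have hb0 := hb 0 (by omega)
    have hmod : a 0 + C % 2 ^ W = b 0 := by
      have h1 : (a 0 + 2 ^ W * pk (2 ^ W) n (fun i => a (i + 1)) + C) % 2 ^ W = (a 0 + C % 2 ^ W) % 2 ^ W := by
        rw [show a 0 + 2 ^ W * pk (2 ^ W) n (fun i => a (i + 1)) + C =
          (a 0 + C) + 2 ^ W * pk (2 ^ W) n (fun i => a (i + 1)) by ring, Nat.add_mul_mod_self_left,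
          Nat.add_mod_mod]
      have h2 : (b 0 + 2 ^ W * pk (2 ^ W) n (fun i => b (i + 1))) % 2 ^ W = b 0 := by
        rw [Nat.add_mul_mod_self_left, Nat.mod_eq_of_lt hb0]
      rw [hC, h2] at h1
      rw [Nat.mod_eq_of_lt (by omega)] at h1
      exact h1.symm
    have hrest : pk (2 ^ W) n (fun i => a (i + 1)) + C / 2 ^ W = pk (2 ^ W) n (fun i => b (i + 1)) := by
      refine Nat.eq_of_mul_eq_mul_left hpos ?_
      rw [mul_add]
      omega
    rcases Nat.eq_zero_or_pos i with h0 | h0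
    · subst h0
      omega
    · obtain ⟨j, rfl⟩ := Nat.exists_eq_succ_of_ne_zero h0.ne'
      refine ih (fun i => a (i + 1)) (fun i => b (i + 1)) (C / 2 ^ W) (fun i hi => ha _ (by omega))
        (fun i hi => hb _ (by omega)) hrest (fun i hi => ?_) j (by omega)
      rw [Nat.testBit_div_two_pow]
      have := ht (i + 1) (by omega)
      rw [← this]
      congr 1
      ring

/-- the mask of the top bits -/
def top (W : ℕ) : ℕ → ℕ
  | 0 => 2 ^ (W - 1)
  | k + 1 => top W k ||| (top W k <<< (W * 2 ^ k))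

theorem top_tb (W k i : ℕ) (hi : i < 2 ^ k) : (top W k).testBit (W * i + (W - 1)) = true := by
  induction k generalizing i with
  | zero =>
    have : i = 0 := by
      rw [pow_zero] at hi
      omega
    subst this
    simp [top, Nat.testBit_two_pow_self]
  | succ k ih =>
    show (top W k ||| (top W k <<< (W * 2 ^ k))).testBit _ = true
    rw [Nat.testBit_or, Nat.testBit_shiftLeft]
    by_cases h : i < 2 ^ k
    · rw [ih i h, Bool.true_or]
    · push Not at h
      have h1 : i - 2 ^ k < 2 ^ k := by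
        rw [pow_succ] at hi
        omega
      have h2 : W * i = W * 2 ^ k + W * (i - 2 ^ k) := by
        rw [← mul_add]
        congr 1
        omega
      have h3 : W * i + (W - 1) - W * 2 ^ k = W * (i - 2 ^ k) + (W - 1) := by omega
      rw [h3, ih _ h1]
      have h4 : W * 2 ^ k ≤ W * i + (W - 1) := by omega
      simp [h4]

/-- the final comparison -/
def fin3 (A B T : ℕ) : Bool := Nat.ble A B && Nat.beq ((B - A) &&& T) 0

theorem fin3_sound (W k : ℕ) (hW : 1 ≤ W) (a b : ℕ → ℕ) (ha : ∀ i < 2 ^ k, a i < 2 ^ (W - 1))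
    (hb : ∀ i < 2 ^ k, b i < 2 ^ W) (h : fin3 (pk (2 ^ W) (2 ^ k) a) (pk (2 ^ W) (2 ^ k) b) (top W k) = true) :
    ∀ i < 2 ^ k, a i ≤ b i := by
  unfold fin3 at h
  rw [Bool.and_eq_true] at h
  have h1 := Nat.le_of_ble_eq_true h.1
  have h2 := Nat.eq_of_beq_eq_true h.2
  refine pk_cmp W hW _ a b (pk (2 ^ W) (2 ^ k) b - pk (2 ^ W) (2 ^ k) a) ha hb (by omega) fun i hi => ?_
  have h3 : ((pk (2 ^ W) (2 ^ k) b - pk (2 ^ W) (2 ^ k) a) &&& top W k).testBit (W * i + (W - 1)) = false := by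
    rw [h2, Nat.zero_testBit]
  rw [Nat.testBit_and, top_tb W k i hi, Bool.and_true] at h3
  exact h3

/-! ### digits -/

/-- the digit number `i` of `N` in base `2 ^ w` -/
def dg (w i N : ℕ) : ℕ := N / 2 ^ (w * i) % 2 ^ w

theorem dg_lt (w i N : ℕ) : dg w i N < 2 ^ w := Nat.mod_lt _ (by positivity)

theorem dg_low (w n i N : ℕ) (h : i < n) : dg w i (N % 2 ^ (w * n)) = dg w i N := by
  unfold dg
  have h1 : w * n = w * i + (w + w * (n - i - 1)) := by
    have : n = i + (1 + (n - i - 1)) := by omega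
    conv_lhs => rw [this]
    ring
  rw [h1, pow_add, Nat.mod_mul_right_div_self, pow_add, Nat.mod_mul_right_mod]

theorem dg_high (w n i N : ℕ) : dg w i (N / 2 ^ (w * n)) = dg w (n + i) N := by
  unfold dg
  rw [Nat.div_div_eq_div_mul, ← pow_add, ← mul_add]

/-- repacking from `w` bits to `W` bits -/
def spr (w W : ℕ) : ℕ → ℕ → ℕ
  | 0, N => N % 2 ^ w
  | k + 1, N => spr w W k (N % 2 ^ (w * 2 ^ k)) + (spr w W k (N / 2 ^ (w * 2 ^ k))) <<< (W * 2 ^ k)

theorem spr_eq (w W k N : ℕ) : spr w W k N = pk (2 ^ W) (2 ^ k) (fun i => dg w i N) := by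
  induction k generalizing N with
  | zero => simp [spr, pk, dg]
  | succ k ih =>
    show spr w W k (N % 2 ^ (w * 2 ^ k)) + (spr w W k (N / 2 ^ (w * 2 ^ k))) <<< (W * 2 ^ k) = _
    rw [ih, ih, shl, pow_succ, mul_two, pk_app]
    congr 1
    · exact pk_congr fun i hi => dg_low w _ i N hi
    · congr 1
      exact pk_congr fun i _ => dg_high w _ i N

/-- repacking from `w` bits to `W` bits, every digit twice -/
def dpl (w W : ℕ) : ℕ → ℕ → ℕ
  | 0, N => N % 2 ^ w + (N % 2 ^ w) <<< (W * 1)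
  | k + 1, N => dpl w W k (N % 2 ^ (w * 2 ^ k)) + (dpl w W k (N / 2 ^ (w * 2 ^ k))) <<< (W * 2 ^ (k + 1))

theorem dpl_eq (w W k N : ℕ) : dpl w W k N = pk (2 ^ W) (2 ^ (k + 1)) (fun i => dg w (i / 2) N) := by
  induction k generalizing N with
  | zero =>
    show N % 2 ^ w + (N % 2 ^ w) <<< (W * 1) = _
    rw [shl]
    simp [pk, dg, sum_range_succ]
    ring
  | succ k ih =>
    show dpl w W k (N % 2 ^ (w * 2 ^ k)) + (dpl w W k (N / 2 ^ (w * 2 ^ k))) <<< (W * 2 ^ (k + 1)) = _
    rw [ih, ih, shl, pow_succ (2 : ℕ) (k + 1), mul_two, pk_app]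
    congr 1
    · refine pk_congr fun i hi => dg_low w _ _ N ?_
      rw [pow_succ] at hi
      omega
    · congr 1
      refine pk_congr fun i _ => ?_
      rw [dg_high]
      congr 1
      rw [pow_succ]
      omega

/-- repetition: `m` doublings of an array of length `2 ^ k` -/
def rpt (W : ℕ) : ℕ → ℕ → ℕ → ℕ
  | 0, _, N => N
  | m + 1, k, N => rpt W m (k + 1) (N + N <<< (W * 2 ^ k))

theorem rpt_eq (W m k : ℕ) (a : ℕ → ℕ) :
    rpt W m k (pk (2 ^ W) (2 ^ k) a) = pk (2 ^ W) (2 ^ (k + m)) (fun i => a (i % 2 ^ k)) := by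
  induction m generalizing k a with
  | zero =>
    show pk (2 ^ W) (2 ^ k) a = _
    exact pk_congr fun i hi => by rw [Nat.mod_eq_of_lt hi]
  | succ m ih =>
    show rpt W m (k + 1) (pk (2 ^ W) (2 ^ k) a + (pk (2 ^ W) (2 ^ k) a) <<< (W * 2 ^ k)) = _
    have h : pk (2 ^ W) (2 ^ k) a + (pk (2 ^ W) (2 ^ k) a) <<< (W * 2 ^ k) =
        pk (2 ^ W) (2 ^ (k + 1)) (fun i => a (i % 2 ^ k)) := by
      rw [shl, pow_succ, mul_two, pk_app]
      congr 1
      · exact pk_congr fun i hi => by rw [Nat.mod_eq_of_lt hi]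
      · congr 1
        exact pk_congr fun i hi => by rw [Nat.add_mod_left, Nat.mod_eq_of_lt hi]
    rw [h, ih (k + 1)]
    rw [show k + 1 + m = k + (m + 1) by ring]
    refine pk_congr fun i _ => ?_
    congr 1
    exact Nat.mod_mod_of_dvd _ (pow_dvd_pow 2 (Nat.le_succ k))

/-- the array of the costs -/
def ccs (W D : ℕ) (f : ℕ → Bool) : ℕ → ℕ → ℕ
  | 0, b => if f b then D else 0
  | k + 1, b => ccs W D f k b + (ccs W D f k (b + 2 ^ k)) <<< (W * 2 ^ k)

theorem ccs_eq (W D : ℕ) (f : ℕ → Bool) (k b : ℕ) :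
    ccs W D f k b = pk (2 ^ W) (2 ^ k) (fun i => if f (b + i) then D else 0) := by
  induction k generalizing b with
  | zero => simp [ccs, pk]
  | succ k ih =>
    show ccs W D f k b + (ccs W D f k (b + 2 ^ k)) <<< (W * 2 ^ k) = _
    rw [ih, ih, shl, pow_succ, mul_two, pk_app]
    congr 2
    exact pk_congr fun i _ => by rw [add_assoc]

end Pool.Agent.LLR
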