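import Pool.Agent.LLO.Crt

set_option autoImplicit false

/-! The dynamical system of one scale `X` with the residue modulo `q` in the letter. -/

open Finset

namespace Pool.Agent.LLR

open Pool.Agent.LLO
open Pool.Agent.FCH (ent rst wrd)

/-- the letter at `a`: the letter of `LLO` and the residue of `X + a` modulo `q` -/
def sr (q X a : ℕ) : (Bool × Bool) × ℕ := (sy X a, (X + a) % q)

/-- entropy deficiency of the residues modulo the primes in `pr A P`, given the word of length `H` -/
noncomputable def dfr (q X A P H : ℕ) : ℝ :=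
  ∑ p ∈ pr A P, Real.log p - (ent (range X) (fun a => (wrd (sh X) (sr q X) H a, rst (pr A P) (yo X a))) -
    ent (range X) (wrd (sh X) (sr q X) H))

theorem dfr_nonneg (q X A P H : ℕ) : 0 ≤ dfr q X A P H := by
  unfold dfr
  have h1 := Pool.Agent.FCH.ent_pair_le (range X) (wrd (sh X) (sr q X) H)
    (fun a => rst (pr A P) (yo X a))
  have h2 := ent_yo_le X (pr A P) (fun p hp => (mem_pr.1 hp).2)
  linarith

/-- `λ` from the letter -/
def l1 (s : (Bool × Bool) × ℕ) : ℝ := lb s.1

/-- `λ` from the letter, if the residue is `t` -/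
def l0 (t : ℕ) (s : (Bool × Bool) × ℕ) : ℝ := if s.2 = t then lb s.1 else 0

/-- `λ n` if `n ≡ t`, `0` otherwise -/
noncomputable def lr (q t n : ℕ) : ℝ := if n % q = t then lam n else 0

theorem l1_sr (q X a : ℕ) : l1 (sr q X a) = lam (X + a) := lb_sy X a

theorem l0_sr (q t X a : ℕ) : l0 t (sr q X a) = lr q t (X + a) := by
  unfold l0 sr lr
  simp only [lb_sy]

theorem lb_abs (b : Bool × Bool) : |lb b| = 1 := by
  unfold lb
  split_ifs
  · exact abs_one
  · rw [abs_neg, abs_one]

theorem l1_abs (s : (Bool × Bool) × ℕ) : |l1 s| ≤ 1 := (lb_abs s.1).le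

theorem l0_abs (t : ℕ) (s : (Bool × Bool) × ℕ) : |l0 t s| ≤ 1 := by
  unfold l0
  split_ifs
  · exact (lb_abs s.1).le
  · rw [abs_zero]; exact zero_le_one

theorem lr_abs (q t n : ℕ) : |lr q t n| ≤ 1 := by
  unfold lr
  split_ifs
  · exact (lam_abs n).le
  · rw [abs_zero]; exact zero_le_one

end Pool.Agent.LLR
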