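import Pool.Agent.LLR.Td

set_option autoImplicit false

/-! The check of the certificate `td`, residues 0 to 2. -/

namespace Pool.Agent.LLR

theorem td_r0 : td.chkR (fun W => W == 3 || W == 9 || W == 12) 0 = true := by decide +kernel

theorem td_r1 : td.chkR (fun W => W == 3 || W == 9 || W == 12) 1 = true := by decide +kernel

theorem td_r2 : td.chkR (fun W => W == 3 || W == 9 || W == 12) 2 = true := by decide +kernel

end Pool.Agent.LLR
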